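import Mathlib

/-! A two-phase shadow-vertex simplex method and the perturbation model. -/

namespace Pool.Agent.Lib.MP_3b7f8d_lc

open MeasureTheory

/-- A row `(a, β)` is the constraint `a ⬝ x ≤ β`. -/
abbrev Row (n : ℕ) := (Fin n → ℝ) × ℝ

/-- Row indices: `2 n` box rows and the `m` rows of the input. -/
abbrev Idx (n m : ℕ) := (Fin n × Bool) ⊕ Fin m

section
variable {n : ℕ} {ι : Type} [DecidableEq ι]

/-- `B` is a feasible basis of the system `S` of rows, with basic solution (vertex) `x`. -/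
def IsBFS (r : ι → Row n) (S B : Finset ι) (x : Fin n → ℝ) : Prop :=
  B ⊆ S ∧ B.card = n ∧ LinearIndependent ℝ (fun i : B => (r i).1) ∧
    (∀ i ∈ B, (r i).1 ⬝ᵥ x = (r i).2) ∧ ∀ i ∈ S, (r i).1 ⬝ᵥ x ≤ (r i).2

/-- `B` is optimal (dual feasible) for the objective `w`, with multipliers `y`. -/
def IsDual (r : ι → Row n) (B : Finset ι) (w : Fin n → ℝ) (y : ι → ℝ) : Prop :=
  (∀ i ∈ B, 0 ≤ y i) ∧ w = ∑ i ∈ B, y i • (r i).1

/-- Shadow-vertex rule from `z` to `c`: `B` is optimal for `(1 - l) z + l c`, the multiplier of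
row `i` vanishes there, and the edge direction `d` that leaves row `i` improves `c`. -/
def Leaves (r : ι → Row n) (z c : Fin n → ℝ) (B : Finset ι) (i : ι) (d : Fin n → ℝ) : Prop :=
  i ∈ B ∧ (r i).1 ⬝ᵥ d < 0 ∧ (∀ j ∈ B.erase i, (r j).1 ⬝ᵥ d = 0) ∧ 0 < c ⬝ᵥ d ∧
    ∃ l ∈ Set.Ico (0 : ℝ) 1, ∃ y, IsDual r B ((1 - l) • z + l • c) y ∧ y i = 0

end

variable {n m : ℕ}

/-- The box `-M (1 + θ (j, false)) ≤ x j ≤ M (1 + θ (j, true))` and the input rows. -/
def rows (M : ℝ) (θ : Fin n × Bool → ℝ) (inp : Fin m → Row n) : Idx n m → Row n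
  | .inl q => (Pi.single q.1 (if q.2 then 1 else -1), M * (1 + θ q))
  | .inr i => inp i

/-- The system of stage `k`: the box rows and the first `k` input rows. -/
def sys (n m k : ℕ) : Finset (Idx n m) :=
  Finset.univ.disjSum (Finset.univ.filter fun i : Fin m => (i : ℕ) < k)

/-- The starting basis: the corner of the box that maximises `z`. -/
noncomputable def start (m : ℕ) (z : Fin n → ℝ) : Finset (Idx n m) :=
  Finset.univ.image fun j => Sum.inl (j, decide (0 ≤ z j))

/-- One step of the algorithm on states (stage, basis). -/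
inductive Step (r : Idx n m → Row n) (z c : Fin n → ℝ) :
    ℕ × Finset (Idx n m) → ℕ × Finset (Idx n m) → Prop
  | skip (k : Fin m) (B : Finset (Idx n m)) (x : Fin n → ℝ) : IsBFS r (sys n m k) B x →
      (r (.inr k)).1 ⬝ᵥ x ≤ (r (.inr k)).2 → Step r z c (k, B) (k + 1, B)
  | cross (k : Fin m) (B : Finset (Idx n m)) (x d x' : Fin n → ℝ) (i : Idx n m) :
      IsBFS r (sys n m k) B x → (r (.inr k)).2 < (r (.inr k)).1 ⬝ᵥ x →
      Leaves r z (-(r (.inr k)).1) B i d →
      IsBFS r (sys n m (k + 1)) (insert (.inr k) (B.erase i)) x' →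
      Step r z c (k, B) (k + 1, insert (.inr k) (B.erase i))
  | pivotOne (k : Fin m) (B : Finset (Idx n m)) (d x' : Fin n → ℝ) (i j : Idx n m) :
      Leaves r z (-(r (.inr k)).1) B i d → 0 < (r j).1 ⬝ᵥ d →
      IsBFS r (sys n m k) (insert j (B.erase i)) x' → (r (.inr k)).2 < (r (.inr k)).1 ⬝ᵥ x' →
      Step r z c (k, B) (k, insert j (B.erase i))
  | pivotTwo (B : Finset (Idx n m)) (d x' : Fin n → ℝ) (i j : Idx n m) :
      Leaves r z c B i d → 0 < (r j).1 ⬝ᵥ d → IsBFS r (sys n m m) (insert j (B.erase i)) x' →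
      Step r z c (m, B) (m, insert j (B.erase i))

/-- Answers of the algorithm. -/
inductive Answer (n : ℕ)
  | infeasible
  | unbounded
  | optimal (x : Fin n → ℝ)

/-- The stopping rules. -/
inductive Stops (r : Idx n m → Row n) (c : Fin n → ℝ) : ℕ × Finset (Idx n m) → Answer n → Prop
  | infeasible (k : Fin m) (B : Finset (Idx n m)) (x : Fin n → ℝ) (y : Idx n m → ℝ) :
      IsBFS r (sys n m k) B x → (r (.inr k)).2 < (r (.inr k)).1 ⬝ᵥ x →
      IsDual r B (-(r (.inr k)).1) y → Stops r c (k, B) .infeasible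
  | unbounded (B : Finset (Idx n m)) (x : Fin n → ℝ) (y : Idx n m → ℝ) (q : Fin n × Bool) :
      IsBFS r (sys n m m) B x → IsDual r B c y → .inl q ∈ B → 0 < y (.inl q) →
      Stops r c (m, B) .unbounded
  | optimal (B : Finset (Idx n m)) (x : Fin n → ℝ) (y : Idx n m → ℝ) :
      IsBFS r (sys n m m) B x → IsDual r B c y → (∀ q, .inl q ∈ B → y (.inl q) = 0) →
      Stops r c (m, B) (.optimal x)

/-- The answer is right for the program `max c ⬝ x` subject to the input rows. -/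
def Correct (inp : Fin m → Row n) (c : Fin n → ℝ) : Answer n → Prop
  | .infeasible => ¬ ∃ x, ∀ i, (inp i).1 ⬝ᵥ x ≤ (inp i).2
  | .unbounded => ∀ K : ℝ, ∃ x, (∀ i, (inp i).1 ⬝ᵥ x ≤ (inp i).2) ∧ K < c ⬝ᵥ x
  | .optimal x => (∀ i, (inp i).1 ⬝ᵥ x ≤ (inp i).2) ∧
      ∀ x', (∀ i, (inp i).1 ⬝ᵥ x' ≤ (inp i).2) → c ⬝ᵥ x' ≤ c ⬝ᵥ x

/-- Every execution from the state `s` stops after at most `N` steps with an answer in `ok`. -/
inductive Halts (r : Idx n m → Row n) (z c : Fin n → ℝ) (ok : Answer n → Prop) :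
    ℕ × Finset (Idx n m) → ℕ → Prop
  | stop (s : ℕ × Finset (Idx n m)) (N : ℕ) : (∃ a, Stops r c s a) →
      (∀ a, Stops r c s a → ok a) → Halts r z c ok s N
  | step (s : ℕ × Finset (Idx n m)) (N : ℕ) : (¬ ∃ a, Stops r c s a) → (∃ s', Step r z c s s') →
      (∀ s', Step r z c s s' → Halts r z c ok s' N) → Halts r z c ok s (N + 1)

/-- Law of `u + ρ` where `ρ` has density `f (ρ / σ) / σ`. -/
noncomputable def pert (f : ℝ → ℝ) (σ u : ℝ) : Measure ℝ :=
  volume.withDensity fun x => ENNReal.ofReal (f ((x - u) / σ) / σ)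

/-- Law of the perturbed input: all entries of `A` and `b` are perturbed independently. -/
noncomputable def inputLaw (f : ℝ → ℝ) (σ : ℝ) (A : Fin m → Fin n → ℝ) (b : Fin m → ℝ) :
    Measure (Fin m → Row n) :=
  Measure.pi fun i => (Measure.pi fun j => pert f σ (A i j)).prod (pert f σ (b i))

/-- Law of the box parameters: independent standard exponentials. -/
noncomputable def boxLaw (n : ℕ) : Measure (Fin n × Bool → ℝ) :=
  Measure.pi fun _ => ProbabilityTheory.expMeasure 1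

/-- Law of the auxiliary objective: uniform on the cube `[-1, 1]^n`. -/
noncomputable def auxLaw (n : ℕ) : Measure (Fin n → ℝ) :=
  ProbabilityTheory.cond volume (Set.Icc (-1) 1)

end Pool.Agent.Lib.MP_3b7f8d_lc
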