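import Mathlib
import Pool.Agent.Lib.MP_3b7f8d_lc.Defs

/-! Deterministic facts about bases. -/

namespace Pool.Agent.Lib.MP_3b7f8d_lc

open Finset

variable {n : ℕ} {ι : Type}

theorem span_top {r : ι → Row n} {B : Finset ι} (hc : B.card = n)
    (hl : LinearIndependent ℝ (fun i : B => (r i).1)) (w : Fin n → ℝ) :
    ∃ y : ι → ℝ, w = ∑ i ∈ B, y i • (r i).1 := by
  classical
  have h := hl.span_eq_top_of_card_eq_finrank' (by simp [hc])
  have hw : w ∈ Submodule.span ℝ (Set.range fun i : B => (r i).1) := h ▸ Submodule.mem_top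
  obtain ⟨y, hy⟩ := (Submodule.mem_span_range_iff_exists_fun ℝ).1 hw
  refine ⟨fun i => if h : i ∈ B then y ⟨i, h⟩ else 0, ?_⟩
  rw [← hy, ← sum_coe_sort B]
  exact sum_congr rfl fun i _ => by simp

theorem sum_dot (r : ι → Row n) (B : Finset ι) (y : ι → ℝ) (u : Fin n → ℝ) :
    (∑ i ∈ B, y i • (r i).1) ⬝ᵥ u = ∑ i ∈ B, y i * ((r i).1 ⬝ᵥ u) := by
  rw [sum_dotProduct]
  exact sum_congr rfl fun i _ => by rw [smul_dotProduct, smul_eq_mul]

theorem eq_zero_of_dot {r : ι → Row n} {B : Finset ι} (hc : B.card = n)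
    (hl : LinearIndependent ℝ (fun i : B => (r i).1)) {u : Fin n → ℝ}
    (hu : ∀ i ∈ B, (r i).1 ⬝ᵥ u = 0) : u = 0 := by
  obtain ⟨y, hy⟩ := span_top hc hl u
  have : u ⬝ᵥ u = 0 := by
    nth_rewrite 1 [hy]
    rw [sum_dot]
    exact sum_eq_zero fun i hi => by rw [hu i hi, mul_zero]
  exact dotProduct_self_eq_zero.1 this

theorem eq_of_dot {r : ι → Row n} {B : Finset ι} (hc : B.card = n)
    (hl : LinearIndependent ℝ (fun i : B => (r i).1)) {u v : Fin n → ℝ}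
    (hu : ∀ i ∈ B, (r i).1 ⬝ᵥ u = (r i).1 ⬝ᵥ v) : u = v :=
  sub_eq_zero.1 (eq_zero_of_dot hc hl fun i hi => by rw [dotProduct_sub, hu i hi, sub_self])

theorem exists_dot {r : ι → Row n} {B : Finset ι} (hc : B.card = n)
    (hl : LinearIndependent ℝ (fun i : B => (r i).1)) (β : ι → ℝ) :
    ∃ u : Fin n → ℝ, ∀ i ∈ B, (r i).1 ⬝ᵥ u = β i := by
  let L : (Fin n → ℝ) →ₗ[ℝ] (B → ℝ) :=
    { toFun := fun u i => (r i).1 ⬝ᵥ u
      map_add' := fun u v => funext fun i => dotProduct_add _ _ _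
      map_smul' := fun a u => funext fun i => dotProduct_smul _ _ _ }
  have hinj : Function.Injective L := fun u v h =>
    eq_of_dot hc hl fun i hi => congrFun h ⟨i, hi⟩
  obtain ⟨u, hu⟩ := (LinearMap.injective_iff_surjective_of_finrank_eq_finrank
    (by simp [hc])).1 hinj fun i => β i
  exact ⟨u, fun i hi => congrFun hu ⟨i, hi⟩⟩

theorem mult_unique {r : ι → Row n} {B : Finset ι}
    (hl : LinearIndependent ℝ (fun i : B => (r i).1)) {y y' : ι → ℝ}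
    (h : ∑ i ∈ B, y i • (r i).1 = ∑ i ∈ B, y' i • (r i).1) : ∀ i ∈ B, y i = y' i := by
  intro i hi
  have := Fintype.linearIndependent_iff.1 hl (fun j => y j - y' j) (by
    simp only [sub_smul, sum_sub_distrib]
    rw [sum_coe_sort B fun j => y j • (r j).1, sum_coe_sort B fun j => y' j • (r j).1, h, sub_self])
    ⟨i, hi⟩
  exact sub_eq_zero.1 this

theorem abs_dot_le {z x : Fin n → ℝ} (hz : ‖z‖ ≤ 1) : |z ⬝ᵥ x| ≤ n * ‖x‖ := by
  calc |z ⬝ᵥ x| ≤ ∑ j, |z j * x j| := abs_sum_le_sum_abs _ _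
    _ ≤ ∑ _j : Fin n, ‖x‖ := sum_le_sum fun j _ => by
        rw [abs_mul]
        have h1 : |z j| ≤ 1 := (norm_le_pi_norm z j).trans hz
        have h2 : |x j| ≤ ‖x‖ := norm_le_pi_norm x j
        nlinarith [abs_nonneg (z j), abs_nonneg (x j)]
    _ = _ := by simp

variable [DecidableEq ι]

theorem IsBFS.unique {r : ι → Row n} {S S' B : Finset ι} {x x' : Fin n → ℝ} (h : IsBFS r S B x)
    (h' : IsBFS r S' B x') : x = x' :=
  eq_of_dot h.2.1 h.2.2.1 fun i hi => by rw [h.2.2.2.1 i hi, h'.2.2.2.1 i hi]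

theorem IsBFS.dot_sub {r : ι → Row n} {S B : Finset ι} {x : Fin n → ℝ} (h : IsBFS r S B x)
    (y : ι → ℝ) (u : Fin n → ℝ) : (∑ i ∈ B, y i • (r i).1) ⬝ᵥ (x - u) =
      ∑ i ∈ B, y i * ((r i).2 - (r i).1 ⬝ᵥ u) := by
  rw [sum_dot]
  exact sum_congr rfl fun i hi => by rw [dotProduct_sub, h.2.2.2.1 i hi]

theorem IsBFS.optimal {r : ι → Row n} {S B : Finset ι} {x w : Fin n → ℝ} {y : ι → ℝ}
    (h : IsBFS r S B x) (hy : IsDual r B w y) {u : Fin n → ℝ}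
    (hu : ∀ i ∈ B, (r i).1 ⬝ᵥ u ≤ (r i).2) : w ⬝ᵥ u ≤ w ⬝ᵥ x := by
  have h1 := h.dot_sub y u
  rw [← hy.2, dotProduct_sub] at h1
  have : 0 ≤ ∑ i ∈ B, y i * ((r i).2 - (r i).1 ⬝ᵥ u) :=
    sum_nonneg fun i hi => mul_nonneg (hy.1 i hi) (sub_nonneg.2 (hu i hi))
  linarith

theorem sep_aux {r : ι → Row n} {S B B' : Finset ι} {x x' z c : Fin n → ℝ} {y y' : ι → ℝ}
    {t t' μ η : ℝ} (h : IsBFS r S B x) (h' : IsBFS r S B' x') (hne : B ≠ B') (ht : 0 ≤ t)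
    (htt : t ≤ t') (hμ : 0 < μ) (hη : 0 < η) (hy : ∀ i ∈ B, μ ≤ y i)
    (hw : z + t • c = ∑ i ∈ B, y i • (r i).1) (hy' : IsDual r B' (z + t' • c) y')
    (hs : ∀ i ∈ B \ B', η ≤ (r i).2 - (r i).1 ⬝ᵥ x') : μ * η ≤ z ⬝ᵥ x - z ⬝ᵥ x' := by
  obtain ⟨i, hi⟩ : (B \ B').Nonempty := by
    rw [sdiff_nonempty]
    exact fun hsub => hne (eq_of_subset_of_card_le hsub (by rw [h.2.1, h'.2.1]))
  have hiB := (mem_sdiff.1 hi).1
  have h1 : μ * η ≤ (z + t • c) ⬝ᵥ (x - x') := by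
    rw [hw, h.dot_sub]
    refine le_trans ?_ (single_le_sum (f := fun i => y i * ((r i).2 - (r i).1 ⬝ᵥ x'))
      (fun j hj => mul_nonneg (hμ.le.trans (hy j hj))
        (sub_nonneg.2 (h'.2.2.2.2 j (h.1 hj)))) hiB)
    exact mul_le_mul (hy i hiB) (hs i hi) hη.le (hμ.le.trans (hy i hiB))
  have h2 := h'.optimal hy' (u := x) fun j hj => h.2.2.2.2 j (h'.1 hj)
  simp only [add_dotProduct, smul_dotProduct, dotProduct_sub, smul_eq_mul] at h1 h2
  have h3 := mul_pos hμ hη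
  by_cases h4 : 0 ≤ c ⬝ᵥ x - c ⬝ᵥ x'
  · nlinarith
  · nlinarith

theorem card_le_of_sep {α : Type} (G : Finset α) (w : α → ℝ) {R s : ℝ} (hs : 0 < s) (hR : 0 ≤ R)
    (hw : ∀ a ∈ G, |w a| ≤ R) (hsep : ∀ a ∈ G, ∀ b ∈ G, a ≠ b → s ≤ |w a - w b|) :
    (G.card : ℝ) ≤ 2 * R / s + 1 := by
  have h1 : G.card ≤ (range (⌊2 * R / s⌋₊ + 1)).card := by
    refine card_le_card_of_injOn (fun a => ⌊(w a + R) / s⌋₊) (fun a ha => ?_) fun a ha b hb h => ?_
    · rw [coe_range, Set.mem_Iio, Nat.lt_succ_iff]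
      refine Nat.floor_le_floor ?_
      gcongr
      linarith [(abs_le.1 (hw a ha)).2]
    · by_contra hne
      have h2 := hsep a ha b hb hne
      have ha0 : 0 ≤ (w a + R) / s := div_nonneg (by linarith [(abs_le.1 (hw a ha)).1]) hs.le
      have hb0 : 0 ≤ (w b + R) / s := div_nonneg (by linarith [(abs_le.1 (hw b hb)).1]) hs.le
      have h3 : ⌊(w a + R) / s⌋ = ⌊(w b + R) / s⌋ := by
        rw [← Int.natCast_floor_eq_floor ha0, ← Int.natCast_floor_eq_floor hb0]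
        exact congrArg _ h
      have h4 := Int.abs_sub_lt_one_of_floor_eq_floor h3
      rw [← sub_div, abs_div, abs_of_pos hs, div_lt_one hs, add_sub_add_right_eq_sub] at h4
      linarith
  rw [card_range] at h1
  calc (G.card : ℝ) ≤ (⌊2 * R / s⌋₊ + 1 : ℕ) := by exact_mod_cast h1
    _ ≤ _ := by
      push_cast
      gcongr
      exact Nat.floor_le (by positivity)

/-- Row `i` is nearly in the span of the other rows of `B`. -/
def Flat (δ : ℝ) (r : ι → Row n) (B : Finset ι) (i : ι) : Prop :=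
  LinearIndependent ℝ (fun j : B => (r j).1) ∧
    ∃ h : Fin n → ℝ, ‖h‖ = 1 ∧ (∀ j ∈ B.erase i, (r j).1 ⬝ᵥ h = 0) ∧ |(r i).1 ⬝ᵥ h| ≤ δ

theorem IsBFS.norm_le {r : ι → Row n} {S B : Finset ι} {x : Fin n → ℝ} (h : IsBFS r S B x) {δ : ℝ}
    (hδ : 0 < δ) (hf : ∀ i ∈ B, ¬ Flat δ r B i) : ‖x‖ ≤ (∑ i ∈ B, |(r i).2|) / δ := by
  choose u hu using fun i => exists_dot h.2.1 h.2.2.1 fun j => if j = i then 1 else 0
  have h1 : x = ∑ i ∈ B, (r i).2 • u i := by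
    refine eq_of_dot h.2.1 h.2.2.1 fun j hj => ?_
    rw [h.2.2.2.1 j hj, dotProduct_sum, sum_eq_single_of_mem j hj]
    · rw [dotProduct_smul, hu j j hj]
      simp
    · intro i _ hij
      rw [dotProduct_smul, hu i j hj, if_neg hij.symm]
      simp
  have h2 : ∀ i ∈ B, ‖u i‖ ≤ 1 / δ := by
    intro i hi
    by_contra hlt
    push Not at hlt
    have h0 : 0 < ‖u i‖ := lt_trans (by positivity) hlt
    refine hf i hi ⟨h.2.2.1, ‖u i‖⁻¹ • u i, ?_, fun j hj => ?_, ?_⟩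
    · rw [norm_smul, norm_inv, norm_norm, inv_mul_cancel₀ h0.ne']
    · rw [dotProduct_smul, hu i j (mem_of_mem_erase hj), if_neg (ne_of_mem_erase hj)]
      simp
    · rw [dotProduct_smul, hu i i hi, if_pos rfl, smul_eq_mul, mul_one, abs_of_pos (by positivity)]
      rw [inv_le_comm₀ h0 hδ, ← one_div]
      exact hlt.le
  rw [h1, sum_div]
  refine (norm_sum_le _ _).trans (sum_le_sum fun i hi => ?_)
  rw [norm_smul, Real.norm_eq_abs, div_eq_mul_one_div]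
  gcongr
  exact h2 i hi

end Pool.Agent.Lib.MP_3b7f8d_lc
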