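import Mathlib
import Pool.Agent.Lib.MP_3b7f8d_lc.Geom

/-! Counting the good bases on a shadow path. -/

namespace Pool.Agent.Lib.MP_3b7f8d_lc

open Finset

variable {n m : ℕ}

/-- `B` is optimal for some objective `z + t c`. -/
def OnDual {ι : Type} (r : ι → Row n) (z c : Fin n → ℝ) (B : Finset ι) : Prop :=
  ∃ t : ℝ, ∃ y, 0 ≤ t ∧ IsDual r B (z + t • c) y

/-- `B` lies on the shadow path. -/
def OnPath {ι : Type} (r : ι → Row n) (S : Finset ι) (z c : Fin n → ℝ) (B : Finset ι) : Prop :=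
  (∃ x, IsBFS r S B x) ∧ OnDual r z c B

/-- `B` lies on the shadow path and has large multipliers somewhere. -/
def GoodMult {ι : Type} (μ : ℝ) (r : ι → Row n) (S : Finset ι) (z c : Fin n → ℝ) (B : Finset ι) :
    Prop :=
  (∃ x, IsBFS r S B x) ∧
    ∃ t : ℝ, ∃ y : ι → ℝ, 0 ≤ t ∧ (∀ i ∈ B, μ ≤ y i) ∧ z + t • c = ∑ i ∈ B, y i • (r i).1

/-- The scale at which slacks are measured. -/
noncomputable def scale (M : ℝ) : Idx n m → (Fin n → ℝ) → ℝ
  | .inl _, _ => M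
  | .inr _, x => max 1 ‖x‖

/-- `B` lies on the shadow path and row `k` has a small slack. -/
def BadSlack (g M : ℝ) (r : Idx n m → Row n) (S : Finset (Idx n m)) (z c : Fin n → ℝ)
    (B : Finset (Idx n m)) (k : Idx n m) : Prop :=
  (∃ x, IsBFS r S B x ∧ (r k).2 - (r k).1 ⬝ᵥ x ≤ g * scale M k x) ∧ OnDual r z c B

/-- The box rows have the expected shape. -/
def BoxOK (M Θ : ℝ) (r : Idx n m → Row n) : Prop :=
  ∀ q : Fin n × Bool, (r (.inl q)).1 = Pi.single q.1 (if q.2 then 1 else -1) ∧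
    M ≤ (r (.inl q)).2 ∧ (r (.inl q)).2 ≤ Θ * M

theorem card_good {r : Idx n m → Row n} {S : Finset (Idx n m)} {z c : Fin n → ℝ}
    {M Θ μ g δ K : ℝ} {J : ℕ} (hbox : BoxOK M Θ r) (hS : ∀ q, Sum.inl q ∈ S) (hz : ‖z‖ ≤ 1)
    (hΘ : 2 ≤ Θ) (hM : 0 < M) (hμ : 0 < μ) (hg : 0 < g) (hδ : 0 < δ)
    (hflat : ∀ B : Finset (Idx n m), B.card = n → ∀ i, .inr i ∈ B → ¬ Flat δ r B (.inr i))
    (hK : ∑ i : Fin m, |(r (.inr i)).2| ≤ K) (hJ : K / δ ≤ 2 ^ J) (G : Finset (Finset (Idx n m)))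
    (hG : ∀ B ∈ G, GoodMult μ r S z c B ∧ ∀ k ∈ S \ B, ¬ BadSlack g M r S z c B k) :
    (G.card : ℝ) ≤ (J + 2) * (2 * (n * Θ) / (μ * g) + 1) := by
  classical
  have h0 : ∀ B, ∃ x : Fin n → ℝ, ∃ t : ℝ, ∃ y : Idx n m → ℝ, B ∈ G → IsBFS r S B x ∧ 0 ≤ t ∧
      (∀ i ∈ B, μ ≤ y i) ∧ z + t • c = ∑ i ∈ B, y i • (r i).1 := by
    intro B
    by_cases hB : B ∈ G
    · obtain ⟨⟨x, hx⟩, t, y, h⟩ := (hG B hB).1
      exact ⟨x, t, y, fun _ => ⟨hx, h⟩⟩
    · exact ⟨0, 0, 0, fun h => absurd h hB⟩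
  choose x t y hx using h0
  have hd : ∀ B ∈ G, IsDual r B (z + t B • c) (y B) := fun B hB =>
    ⟨fun i hi => hμ.le.trans ((hx B hB).2.2.1 i hi), (hx B hB).2.2.2⟩
  have hsl : ∀ B ∈ G, ∀ k ∈ S \ B, g * scale M k (x B) ≤ (r k).2 - (r k).1 ⬝ᵥ x B := by
    intro B hB k hk
    by_contra h
    exact (hG B hB).2 k hk ⟨⟨x B, (hx B hB).1, (not_le.1 h).le⟩, t B, y B, (hx B hB).2.1, hd B hB⟩
  have group : ∀ (ρ : ℝ) (G' : Finset (Finset (Idx n m))), 0 < ρ → G' ⊆ G →
      (∀ B ∈ G', ‖x B‖ ≤ Θ * ρ) → (∀ B ∈ G', ∀ B' ∈ G', ∀ i ∈ B, ρ ≤ scale M i (x B')) →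
      (G'.card : ℝ) ≤ 2 * (n * Θ) / (μ * g) + 1 := by
    intro ρ G' hρ hsub h1 h2
    have key : ∀ B ∈ G', ∀ B' ∈ G', B ≠ B' → t B ≤ t B' → μ * (g * ρ) ≤ z ⬝ᵥ x B - z ⬝ᵥ x B' := by
      intro B hB B' hB' hne htt
      refine sep_aux (hx B (hsub hB)).1 (hx B' (hsub hB')).1 hne (hx B (hsub hB)).2.1 htt hμ
        (by positivity) (hx B (hsub hB)).2.2.1 (hx B (hsub hB)).2.2.2 (hd B' (hsub hB'))
        fun i hi => ?_
      rw [mem_sdiff] at hi
      refine le_trans ?_ (hsl B' (hsub hB') i (mem_sdiff.2 ⟨(hx B (hsub hB)).1.1 hi.1, hi.2⟩))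
      gcongr
      exact h2 B hB B' hB' i hi.1
    have := card_le_of_sep G' (fun B => z ⬝ᵥ x B) (R := n * (Θ * ρ)) (s := μ * (g * ρ))
      (by positivity) (by positivity)
      (fun B hB => (abs_dot_le hz).trans (by gcongr; exact h1 B hB)) fun B hB B' hB' hne => by
        rcases le_total (t B) (t B') with h | h
        · exact (key B hB B' hB' hne h).trans (le_abs_self _)
        · rw [abs_sub_comm]
          exact (key B' hB' B hB hne.symm h).trans (le_abs_self _)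
    refine this.trans (le_of_eq ?_)
    field_simp
  set G0 := G.filter fun B => ∃ q, Sum.inl q ∈ B with hG0
  set Gj : ℕ → Finset (Finset (Idx n m)) := fun j => G.filter fun B => (¬ ∃ q, Sum.inl q ∈ B) ∧
    2 ^ j ≤ max 1 ‖x B‖ ∧ max 1 ‖x B‖ < 2 ^ (j + 1) with hGj
  have hcover : G ⊆ G0 ∪ (range (J + 1)).biUnion Gj := by
    intro B hB
    by_cases hq : ∃ q, Sum.inl q ∈ B
    · exact mem_union_left _ (mem_filter.2 ⟨hB, hq⟩)
    obtain ⟨j, hj1, hj2⟩ := exists_nat_pow_near (le_max_left 1 ‖x B‖) one_lt_two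
    refine mem_union_right _ (mem_biUnion.2 ⟨j, ?_, mem_filter.2 ⟨hB, hq, hj1, hj2⟩⟩)
    have h1 := (hx B hB).1.norm_le hδ fun i hi => by
      rcases i with q | i
      · exact absurd ⟨q, hi⟩ hq
      · exact hflat B (hx B hB).1.2.1 i hi
    have h2 : ∑ i ∈ B, |(r i).2| ≤ K := by
      refine le_trans ?_ hK
      rw [← sum_image (s := univ) (g := (Sum.inr : Fin m → Idx n m)) (f := fun i => |(r i).2|)
        fun _ _ _ _ h => Sum.inr_injective h]
      refine sum_le_sum_of_subset_of_nonneg (fun i hi => ?_) fun _ _ _ => abs_nonneg _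
      rcases i with q | i
      · exact absurd ⟨q, hi⟩ hq
      · exact mem_image_of_mem _ (mem_univ i)
    have h3 : ‖x B‖ ≤ 2 ^ J := h1.trans (le_trans (by gcongr) hJ)
    have h4 : (2 : ℝ) ^ j ≤ 2 ^ J := hj1.trans (max_le (one_le_pow₀ one_le_two) h3)
    rw [mem_range, Nat.lt_succ_iff]
    exact (pow_le_pow_iff_right₀ one_lt_two).1 h4
  have hcoord : ∀ (q : Fin n × Bool) (u : Fin n → ℝ),
      (r (.inl q)).1 ⬝ᵥ u = (if q.2 then 1 else -1) * u q.1 := by
    intro q u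
    rw [(hbox q).1, single_dotProduct]
  have b0 : (G0.card : ℝ) ≤ 2 * (n * Θ) / (μ * g) + 1 := by
    refine group M G0 hM (filter_subset _ _) (fun B hB => ?_) fun B _ B' hB' i _ => ?_
    · have hB' := (hx B (mem_filter.1 hB).1).1
      refine (pi_norm_le_iff_of_nonneg (by positivity)).2 fun j => abs_le.2 ⟨?_, ?_⟩
      · have h1 := hB'.2.2.2.2 _ (hS (j, false))
        have h2 := (hbox (j, false)).2.2
        rw [hcoord] at h1
        simp at h1
        linarith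
      · have h1 := hB'.2.2.2.2 _ (hS (j, true))
        have h2 := (hbox (j, true)).2.2
        rw [hcoord] at h1
        simp at h1
        linarith
    · rcases i with q | i
      · exact le_rfl
      · obtain ⟨hB', q, hq⟩ := mem_filter.1 hB'
        have h1 := (hx B' hB').1.2.2.2.1 _ hq
        have h2 := (hbox q).2.1
        rw [hcoord] at h1
        refine le_trans ?_ ((norm_le_pi_norm (x B') q.1).trans (le_max_right _ _))
        rw [Real.norm_eq_abs]
        split_ifs at h1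
        · linarith [le_abs_self (x B' q.1)]
        · linarith [neg_le_abs (x B' q.1)]
  have bj : ∀ j, ((Gj j).card : ℝ) ≤ 2 * (n * Θ) / (μ * g) + 1 := by
    intro j
    refine group (2 ^ j) (Gj j) (by positivity) (filter_subset _ _) (fun B hB => ?_)
      fun B hB B' hB' i hi => ?_
    · have h1 := (le_max_right _ _).trans (mem_filter.1 hB).2.2.2.le
      rw [pow_succ] at h1
      have : (0 : ℝ) < 2 ^ j := by positivity
      nlinarith
    · rcases i with q | i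
      · exact absurd ⟨q, hi⟩ (mem_filter.1 hB).2.1
      · exact (mem_filter.1 hB').2.2.1
  have h5 : G.card ≤ G0.card + ∑ j ∈ range (J + 1), (Gj j).card :=
    (card_le_card hcover).trans ((card_union_le _ _).trans (by gcongr; exact card_biUnion_le))
  calc (G.card : ℝ) ≤ G0.card + ∑ j ∈ range (J + 1), ((Gj j).card : ℝ) := by exact_mod_cast h5
    _ ≤ (2 * (n * Θ) / (μ * g) + 1) + ∑ _j ∈ range (J + 1), (2 * (n * Θ) / (μ * g) + 1) := by
      gcongr with j
      exact bj j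
    _ = _ := by
      rw [sum_const, card_range, nsmul_eq_mul]
      push_cast
      ring

end Pool.Agent.Lib.MP_3b7f8d_lc
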