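import Mathlib
import Pool.Agent.Lib.MP_3b7f8d_lc.Good

/-! The executions of the algorithm follow the shadow paths. -/

namespace Pool.Agent.Lib.MP_3b7f8d_lc

open Finset Filter Topology

variable {n m : ℕ}

section
variable {ι : Type} [DecidableEq ι] {r : ι → Row n} {S B : Finset ι} {x z w d : Fin n → ℝ} {i j : ι}

omit [DecidableEq ι] in
theorem li_of {a : ι → Fin n → ℝ} (h : ∀ y : ι → ℝ, ∑ l ∈ B, y l • a l = 0 → ∀ l ∈ B, y l = 0) :
    LinearIndependent ℝ fun l : B => a l :=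
  linearIndepOn_finset_iff.2 h

theorem sum_erase_dot (hd : ∀ l ∈ B.erase i, (r l).1 ⬝ᵥ d = 0) (y : ι → ℝ) :
    (∑ l ∈ B.erase i, y l • (r l).1) ⬝ᵥ d = 0 := by
  rw [sum_dot]
  exact sum_eq_zero fun l hl => by rw [hd l hl, mul_zero]

theorem li_exchange (hl : LinearIndependent ℝ fun l : B => (r l).1) (hi : i ∈ B)
    (hd : ∀ l ∈ B.erase i, (r l).1 ⬝ᵥ d = 0) (hj : (r j).1 ⬝ᵥ d ≠ 0) :
    LinearIndependent ℝ fun l : (insert j (B.erase i) : Finset ι) => (r l).1 := by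
  have hj' : j ∉ B.erase i := fun h => hj (hd j h)
  refine li_of (a := fun l => (r l).1) fun y hy => ?_
  rw [sum_insert hj'] at hy
  have h1 := congrArg (· ⬝ᵥ d) hy
  simp only [add_dotProduct, sum_erase_dot hd, smul_dotProduct, add_zero, zero_dotProduct,
    smul_eq_mul, mul_eq_zero, hj, or_false] at h1
  rw [h1, zero_smul, zero_add] at hy
  have h2 := mult_unique hl (y := Function.update y i 0) (y' := fun _ => 0) (by
    rw [← add_sum_erase _ _ hi, Function.update_self, sum_congr rfl fun l hl => by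
      rw [Function.update_of_ne (ne_of_mem_erase hl)], hy]
    simp)
  intro l hl
  rcases mem_insert.1 hl with rfl | hl
  · exact h1
  · simpa [ne_of_mem_erase hl] using h2 l (mem_of_mem_erase hl)

theorem bfs_exchange (h : IsBFS r S B x) (hi : i ∈ B) (hd : ∀ l ∈ B.erase i, (r l).1 ⬝ᵥ d = 0)
    (hj : (r j).1 ⬝ᵥ d ≠ 0) {S' : Finset ι} (hS : S ⊆ S') (hjS : j ∈ S') {s : ℝ}
    (htight : (r j).1 ⬝ᵥ (x + s • d) = (r j).2) (hfeas : ∀ l ∈ S', (r l).1 ⬝ᵥ (x + s • d) ≤ (r l).2) :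
    IsBFS r S' (insert j (B.erase i)) (x + s • d) := by
  refine ⟨insert_subset hjS ((erase_subset _ _).trans (h.1.trans hS)), ?_,
    li_exchange h.2.2.1 hi hd hj, fun l hl => ?_, hfeas⟩
  · rw [card_insert_of_notMem fun h' => hj (hd j h'), card_erase_add_one hi, h.2.1]
  · rcases mem_insert.1 hl with rfl | hl
    · exact htight
    · rw [dotProduct_add, dotProduct_smul, hd l hl, h.2.2.2.1 l (mem_of_mem_erase hl)]
      simp

theorem exists_leaves (hc : B.card = n) (hl : LinearIndependent ℝ fun l : B => (r l).1)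
    (hd : OnDual r z w B) (hn : ¬ ∃ y, IsDual r B w y) : ∃ i d, Leaves r z w B i d := by
  obtain ⟨t, y, ht, hy, hw⟩ := hd
  obtain ⟨β, hβ⟩ := span_top hc hl w
  have hne : (B.filter fun l => β l < 0).Nonempty := by
    by_contra h
    refine hn ⟨β, fun l hl => not_lt.1 fun h' => h ⟨l, mem_filter.2 ⟨hl, h'⟩⟩, hβ⟩
  obtain ⟨i, hi, hmin⟩ := exists_min_image _ (fun l => y l / -β l) hne
  obtain ⟨hiB, hiβ⟩ := mem_filter.1 hi
  obtain ⟨d, hd⟩ := exists_dot hc hl fun l => if l = i then -1 else 0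
  have hd1 : ∀ l ∈ B.erase i, (r l).1 ⬝ᵥ d = 0 := fun l hl => by
    rw [hd l (mem_of_mem_erase hl), if_neg (ne_of_mem_erase hl)]
  have hd2 : (r i).1 ⬝ᵥ d = -1 := by rw [hd i hiB, if_pos rfl]
  set s := y i / -β i with hs
  have hs0 : 0 ≤ s := div_nonneg (hy i hiB) (by linarith)
  have h1 : 0 < 1 + (t + s) := by linarith
  refine ⟨i, d, hiB, by linarith, hd1, ?_, (t + s) / (1 + (t + s)),
    ⟨by positivity, (div_lt_one h1).2 (by linarith)⟩, fun l => (y l + s * β l) / (1 + (t + s)),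
    ⟨fun l hl => div_nonneg ?_ h1.le, ?_⟩, ?_⟩
  · rw [hβ, ← add_sum_erase _ _ hiB, add_dotProduct, sum_erase_dot hd1, smul_dotProduct, hd2]
    simpa using hiβ
  · by_cases h : β l < 0
    · have := hmin l (mem_filter.2 ⟨hl, h⟩)
      rw [le_div_iff₀ (by linarith)] at this
      linarith
    · have := hy l hl
      have := mul_nonneg hs0 (not_lt.1 h)
      linarith
  · simp only [div_eq_inv_mul, mul_smul, add_smul, sum_add_distrib, ← smul_sum, ← hw, ← hβ]
    have h2 : 1 - (1 + (t + s))⁻¹ * (t + s) = (1 + (t + s))⁻¹ := by field_simp; ring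
    rw [h2]
    module
  · have : β i ≠ 0 := hiβ.ne
    rw [hs]
    field_simp
    ring

theorem exists_enter (h : IsBFS r S B x) (hL : Leaves r z w B i d)
    (hb : ∀ d : Fin n → ℝ, d ≠ 0 → ∃ j ∈ S, 0 < (r j).1 ⬝ᵥ d) :
    ∃ j, ∃ s : ℝ, 0 ≤ s ∧ 0 < (r j).1 ⬝ᵥ d ∧ IsBFS r S (insert j (B.erase i)) (x + s • d) := by
  have hne : (S.filter fun l => 0 < (r l).1 ⬝ᵥ d).Nonempty := by
    obtain ⟨j, hj, hj'⟩ := hb d fun h0 => by simpa [h0] using hL.2.1
    exact ⟨j, mem_filter.2 ⟨hj, hj'⟩⟩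
  obtain ⟨j, hj, hmin⟩ := exists_min_image _
    (fun l => ((r l).2 - (r l).1 ⬝ᵥ x) / ((r l).1 ⬝ᵥ d)) hne
  obtain ⟨hjS, hjd⟩ := mem_filter.1 hj
  have hs0 : 0 ≤ ((r j).2 - (r j).1 ⬝ᵥ x) / ((r j).1 ⬝ᵥ d) :=
    div_nonneg (sub_nonneg.2 (h.2.2.2.2 j hjS)) hjd.le
  refine ⟨j, _, hs0, hjd, bfs_exchange h hL.1 hL.2.2.1 hjd.ne' Subset.rfl hjS ?_ fun l hl => ?_⟩
  · rw [dotProduct_add, dotProduct_smul, smul_eq_mul, div_mul_cancel₀ _ hjd.ne']
    ring
  · rw [dotProduct_add, dotProduct_smul, smul_eq_mul]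
    by_cases h' : 0 < (r l).1 ⬝ᵥ d
    · have := hmin l (mem_filter.2 ⟨hl, h'⟩)
      rw [le_div_iff₀ h'] at this
      linarith
    · have := h.2.2.2.2 l hl
      have := mul_nonpos_of_nonneg_of_nonpos hs0 (not_lt.1 h')
      linarith

theorem Leaves.param (hL : Leaves r z w B i d) : ∃ t : ℝ, ∃ y : ι → ℝ, 0 ≤ t ∧
    IsDual r B (z + t • w) y ∧ y i = 0 ∧ z + t • w = ∑ l ∈ B.erase i, y l • (r l).1 := by
  obtain ⟨hi, -, -, -, l, ⟨h0, h1⟩, y, ⟨hy, hw⟩, hyi⟩ := hL
  have h2 : 0 < 1 - l := by linarith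
  have h3 : z + (l / (1 - l)) • w = ∑ j ∈ B, (y j / (1 - l)) • (r j).1 := by
    simp only [div_eq_inv_mul, mul_smul, ← smul_sum, ← hw, smul_add]
    rw [← mul_smul (1 - l)⁻¹ (1 - l), inv_mul_cancel₀ h2.ne', one_smul]
  refine ⟨l / (1 - l), fun j => y j / (1 - l), by positivity,
    ⟨fun j hj => div_nonneg (hy j hj) h2.le, h3⟩, by simp [hyi], ?_⟩
  rw [h3, ← add_sum_erase _ _ hi]
  simp [hyi]

/-- No two multipliers vanish at the same parameter. -/
def Nondeg (r : ι → Row n) (z w : Fin n → ℝ) : Prop :=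
  ∀ B : Finset ι, B.card = n → ∀ (t : ℝ) (y : ι → ℝ), z + t • w = ∑ l ∈ B, y l • (r l).1 →
    ∀ i ∈ B, ∀ j ∈ B.erase i, y i = 0 → y j ≠ 0

/-- `B'` is optimal at a parameter beyond all parameters at which `B` is optimal. -/
def After (r : ι → Row n) (z w : Fin n → ℝ) (B B' : Finset ι) : Prop :=
  ∃ t : ℝ, ∃ y, 0 ≤ t ∧ IsDual r B' (z + t • w) y ∧ ∀ t' y', IsDual r B (z + t' • w) y' → t' < t

theorem after_pivot (hc : B.card = n) (hN : Nondeg r z w) (hL : Leaves r z w B i d)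
    (hj : 0 < (r j).1 ⬝ᵥ d) {x' : Fin n → ℝ} (h' : IsBFS r S (insert j (B.erase i)) x') :
    After r z w B (insert j (B.erase i)) := by
  obtain ⟨t, y, ht, hy, hyi, hw⟩ := hL.param
  obtain ⟨hi, hid, hd, hwd, -⟩ := hL
  have hj' : j ∉ B.erase i := fun h => hj.ne' (hd j h)
  obtain ⟨β, hβ⟩ := span_top h'.2.1 h'.2.2.1 w
  have hβj : 0 < β j := by
    rw [hβ, sum_insert hj', add_dotProduct, sum_erase_dot hd, smul_dotProduct, add_zero] at hwd
    exact (mul_pos_iff_of_pos_right hj).1 hwd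
  have hev : ∀ᶠ ε in 𝓝[>] (0 : ℝ), ∀ l ∈ B.erase i, 0 < y l + ε * β l := by
    refine (eventually_all_finset _).2 fun l hl => mem_nhdsWithin_of_mem_nhds ?_
    have h1 : 0 < y l := lt_of_le_of_ne (hy.1 l (mem_of_mem_erase hl))
      (hN B hc t y hy.2 i hi l hl hyi).symm
    exact (isOpen_lt (f := fun _ : ℝ => (0 : ℝ)) (g := fun ε => y l + ε * β l) continuous_const
      (by fun_prop)).mem_nhds (by simpa using h1)
  obtain ⟨ε, hε, hε0⟩ := (hev.and self_mem_nhdsWithin).exists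
  have hε0' : 0 < ε := hε0
  refine ⟨t + ε, fun l => Function.update y j 0 l + ε * β l, by linarith, ⟨fun l hl => ?_, ?_⟩,
    fun t' y' hy' => ?_⟩
  · rcases mem_insert.1 hl with rfl | hl
    · simp only [Function.update_self]
      positivity
    · simp only [Function.update_of_ne (ne_of_mem_of_not_mem hl hj')]
      exact (hε l hl).le
  · simp only [add_smul, mul_smul, sum_add_distrib, ← smul_sum, ← hβ]
    rw [← add_assoc, hw, sum_insert hj', Function.update_self, zero_smul, zero_add]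
    congr 1
    exact sum_congr rfl fun l hl => by rw [Function.update_of_ne (ne_of_mem_of_not_mem hl hj')]
  · have h1 := congrArg (· ⬝ᵥ d) hw
    have h2 := congrArg (· ⬝ᵥ d) hy'.2
    rw [← add_sum_erase _ _ hi] at h2
    simp only [add_dotProduct, smul_dotProduct, sum_erase_dot hd, smul_eq_mul, add_zero] at h1 h2
    have h3 := mul_nonpos_of_nonneg_of_nonpos (hy'.1 i hi) hid.le
    have h4 : t' ≤ t := by
      by_contra h
      nlinarith
    linarith

theorem dual_cross (hL : Leaves r z (-(r j).1) B i d) :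
    ∃ y, IsDual r (insert j (B.erase i)) z y := by
  obtain ⟨t, y, ht, hy, -, hw⟩ := hL.param
  obtain ⟨-, -, hd, hwd, -⟩ := hL
  have hj' : j ∉ B.erase i := fun h => by simp [hd j h] at hwd
  refine ⟨Function.update y j t, fun l hl => ?_, ?_⟩
  · rcases mem_insert.1 hl with rfl | hl
    · simpa using ht
    · rw [Function.update_of_ne (ne_of_mem_of_not_mem hl hj')]
      exact hy.1 l (mem_of_mem_erase hl)
  · rw [sum_insert hj', Function.update_self, sum_congr rfl fun l hl => by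
      rw [Function.update_of_ne (ne_of_mem_of_not_mem hl hj')], ← hw]
    module

end

theorem inl_mem_sys (k : ℕ) (q : Fin n × Bool) : (.inl q : Idx n m) ∈ sys n m k := by simp [sys]

theorem inr_mem_sys (k : ℕ) (i : Fin m) : (.inr i : Idx n m) ∈ sys n m k ↔ (i : ℕ) < k := by
  simp [sys]

theorem sys_succ (k : Fin m) : sys n m (k + 1) = insert (.inr k) (sys n m k) := by
  ext i
  rcases i with q | i
  · simp [inl_mem_sys]
  · simp only [mem_insert, inr_mem_sys, Sum.inr.injEq, Fin.ext_iff]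
    omega

/-- The target objective of stage `k`. -/
def target (r : Idx n m → Row n) (c : Fin n → ℝ) (k : ℕ) : Fin n → ℝ :=
  if h : k < m then -(r (.inr ⟨k, h⟩)).1 else c

theorem target_lt (r : Idx n m → Row n) (c : Fin n → ℝ) (k : Fin m) :
    target r c k = -(r (.inr k)).1 := by simp [target]

theorem target_eq (r : Idx n m → Row n) (c : Fin n → ℝ) : target r c m = c := by simp [target]

/-- The number of bases on the path of stage `k`. -/
noncomputable def pathLen (r : Idx n m → Row n) (z c : Fin n → ℝ) (k : ℕ) : ℕ :=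
  {B | OnPath r (sys n m k) z (target r c k) B}.ncard

/-- The potential of a state. -/
noncomputable def rank (r : Idx n m → Row n) (z c : Fin n → ℝ) (s : ℕ × Finset (Idx n m)) : ℕ :=
  {B | OnPath r (sys n m s.1) z (target r c s.1) B ∧
    After r z (target r c s.1) s.2 B}.ncard + ∑ k ∈ Ico (s.1 + 1) (m + 1), pathLen r z c k

/-- The invariant of the algorithm. -/
def Inv (r : Idx n m → Row n) (z c : Fin n → ℝ) (s : ℕ × Finset (Idx n m)) : Prop :=
  s.1 ≤ m ∧ ∃ x, IsBFS r (sys n m s.1) s.2 x ∧ OnDual r z (target r c s.1) s.2 ∧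
    ∀ k : Fin m, s.1 = k → (r (.inr k)).1 ⬝ᵥ x ≤ (r (.inr k)).2 → ∃ y, IsDual r s.2 z y

variable {r : Idx n m → Row n} {z c : Fin n → ℝ}

theorem not_after_self {B : Finset (Idx n m)} {w : Fin n → ℝ} : ¬ After r z w B B :=
  fun ⟨t, y, _, h, h'⟩ => lt_irrefl t (h' t y h)

theorem rank_lt {k : ℕ} {B : Finset (Idx n m)} (h : Inv r z c (k, B)) :
    rank r z c (k, B) < ∑ k' ∈ Ico k (m + 1), pathLen r z c k' := by
  obtain ⟨hk, x, hx, hd, -⟩ := h
  rw [sum_eq_sum_Ico_succ_bot (Nat.lt_succ_of_le hk), rank, pathLen]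
  exact Nat.add_lt_add_right (Set.ncard_lt_ncard ⟨fun B' hB' => hB'.1,
    fun hsub => not_after_self (hsub (a := B) ⟨⟨x, hx⟩, hd⟩).2⟩) _

theorem inv_of_dual {k : ℕ} (hk : k ≤ m) {B : Finset (Idx n m)} {x : Fin n → ℝ}
    (hx : IsBFS r (sys n m k) B x) (hy : ∃ y, IsDual r B z y) : Inv r z c (k, B) :=
  ⟨hk, x, hx, ⟨0, hy.choose, le_rfl, by simpa using hy.choose_spec⟩, fun _ _ _ => hy⟩

theorem rank_pivot {k : ℕ} {B B' : Finset (Idx n m)} {x' : Fin n → ℝ}
    (h' : IsBFS r (sys n m k) B' x') (hA : After r z (target r c k) B B') :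
    rank r z c (k, B') < rank r z c (k, B) := by
  obtain ⟨t, y, ht, hy, hlt⟩ := hA
  refine Nat.add_lt_add_right (Set.ncard_lt_ncard ⟨fun B'' hB => ?_, fun hsub => ?_⟩) _
  · obtain ⟨h1, t', y', ht', hy', hlt'⟩ := hB
    exact ⟨h1, t', y', ht', hy', fun s y'' h => (hlt s y'' h).trans (hlt' t y hy)⟩
  · exact not_after_self (hsub (a := B') ⟨⟨⟨x', h'⟩, t, y, ht, hy⟩, t, y, ht, hy, hlt⟩).2

theorem step_inv (hN : ∀ k, Nondeg r z (target r c k)) {s s' : ℕ × Finset (Idx n m)}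
    (h : Step r z c s s') (hI : Inv r z c s) : Inv r z c s' ∧ rank r z c s' < rank r z c s := by
  obtain ⟨hk, x₀, hx₀, hd, hz⟩ := hI
  cases h with
  | skip k B x hx hs =>
    obtain rfl := hx₀.unique hx
    have h1 : Inv r z c (k + 1, B) := by
      refine inv_of_dual k.2 ⟨?_, hx.2.1, hx.2.2.1, hx.2.2.2.1, ?_⟩ (hz k rfl hs)
      · rw [sys_succ]
        exact hx.1.trans (subset_insert _ _)
      · rw [sys_succ]
        exact forall_mem_insert _ _ _ |>.2 ⟨hs, hx.2.2.2.2⟩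
    exact ⟨h1, (rank_lt h1).trans_le (Nat.le_add_left _ _)⟩
  | cross k B x d x' i hx hv hL hx' =>
    have h1 : Inv r z c (k + 1, _) := inv_of_dual k.2 hx' (dual_cross hL)
    exact ⟨h1, (rank_lt h1).trans_le (Nat.le_add_left _ _)⟩
  | pivotOne k B d x' i j hL hj hx' hv =>
    rw [← target_lt r c k] at hL
    have hA := after_pivot hx₀.2.1 (hN k) hL hj hx'
    refine ⟨⟨hk, x', hx', ?_, fun k' hk' h => ?_⟩, rank_pivot hx' hA⟩
    · obtain ⟨t, y, ht, hy, -⟩ := hA
      exact ⟨t, y, ht, hy⟩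
    · obtain rfl := Fin.ext hk'
      exact absurd h (not_le.2 hv)
  | pivotTwo B d x' i j hL hj hx' =>
    rw [← target_eq r c] at hL
    have hA := after_pivot hx₀.2.1 (hN m) hL hj hx'
    refine ⟨⟨hk, x', hx', ?_, fun k' hk' h => absurd hk' k'.2.ne'⟩, rank_pivot hx' hA⟩
    obtain ⟨t, y, ht, hy, -⟩ := hA
    exact ⟨t, y, ht, hy⟩

theorem exists_step (hb : ∀ q : Fin n × Bool,
      (r (.inl q)).1 = Pi.single q.1 (if q.2 then 1 else -1)) {s : ℕ × Finset (Idx n m)}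
    (hI : Inv r z c s) (hs : ¬ ∃ a, Stops r c s a) : ∃ s', Step r z c s s' := by
  obtain ⟨k, B⟩ := s
  obtain ⟨hk, x, hx, hd, -⟩ := hI
  have hbd : ∀ d : Fin n → ℝ, d ≠ 0 → ∃ j ∈ sys n m k, 0 < (r j).1 ⬝ᵥ d := by
    intro d hd
    obtain ⟨j, hj⟩ := Function.ne_iff.1 hd
    rcases lt_or_gt_of_ne hj with h | h
    · exact ⟨.inl (j, false), inl_mem_sys _ _, by simpa [hb] using h⟩
    · exact ⟨.inl (j, true), inl_mem_sys _ _, by simpa [hb] using h⟩
  simp only at hk hx hd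
  rcases hk.eq_or_lt with rfl | hk
  · rw [target_eq] at hd
    obtain ⟨i, d, hL⟩ := exists_leaves hx.2.1 hx.2.2.1 hd fun ⟨y, hy⟩ => hs (by
      by_cases h : ∀ q, .inl q ∈ B → y (.inl q) = 0
      · exact ⟨_, .optimal B x y hx hy h⟩
      · push Not at h
        obtain ⟨q, hq, h⟩ := h
        exact ⟨_, .unbounded B x y q hx hy hq (lt_of_le_of_ne (hy.1 _ hq) h.symm)⟩)
    obtain ⟨j, s, -, hj, hx'⟩ := exists_enter hx hL hbd
    exact ⟨_, .pivotTwo B d _ i j hL hj hx'⟩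
  · lift k to Fin m using hk
    rw [target_lt] at hd
    by_cases hv : (r (.inr k)).1 ⬝ᵥ x ≤ (r (.inr k)).2
    · exact ⟨_, .skip k B x hx hv⟩
    push Not at hv
    obtain ⟨i, d, hL⟩ := exists_leaves hx.2.1 hx.2.2.1 hd fun ⟨y, hy⟩ =>
      hs ⟨_, .infeasible k B x y hx hv hy⟩
    obtain ⟨j, s, hs0, hj, hx'⟩ := exists_enter hx hL hbd
    by_cases hv' : (r (.inr k)).2 < (r (.inr k)).1 ⬝ᵥ (x + s • d)
    · exact ⟨_, .pivotOne k B d _ i j hL hj hx' hv'⟩
    have hkd : 0 < -((r (.inr k)).1 ⬝ᵥ d) := by simpa using hL.2.2.2.1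
    rw [dotProduct_add, dotProduct_smul, smul_eq_mul, not_lt] at hv'
    set s' := ((r (.inr k)).1 ⬝ᵥ x - (r (.inr k)).2) / -((r (.inr k)).1 ⬝ᵥ d) with hs'
    have h0 : 0 ≤ s' := div_nonneg (by linarith) hkd.le
    have h1 : s' ≤ s := (div_le_iff₀ hkd).2 (by linarith)
    have h2 : (r (.inr k)).1 ⬝ᵥ (x + s' • d) = (r (.inr k)).2 := by
      have := div_mul_cancel₀ ((r (.inr k)).1 ⬝ᵥ x - (r (.inr k)).2) hkd.ne'
      rw [← hs'] at this
      rw [dotProduct_add, dotProduct_smul, smul_eq_mul]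
      linarith
    refine ⟨_, .cross k B x d (x + s' • d) i hx hv hL (bfs_exchange hx hL.1 hL.2.2.1
      (by linarith) ?_ ?_ h2 ?_)⟩
    · rw [sys_succ]
      exact subset_insert _ _
    · rw [sys_succ]
      exact mem_insert_self _ _
    · rw [sys_succ]
      refine forall_mem_insert _ _ _ |>.2 ⟨h2.le, fun l hl => ?_⟩
      have h3 := hx.2.2.2.2 l hl
      have h4 := hx'.2.2.2.2 l hl
      rw [dotProduct_add, dotProduct_smul, smul_eq_mul] at h4 ⊢
      rcases le_total 0 ((r l).1 ⬝ᵥ d) with h | h <;> nlinarith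

theorem halts_of_inv (hb : ∀ q : Fin n × Bool,
      (r (.inl q)).1 = Pi.single q.1 (if q.2 then 1 else -1))
    (hN : ∀ k, Nondeg r z (target r c k)) {ok : Answer n → Prop}
    (hok : ∀ s a, Stops r c s a → ok a) (N : ℕ) :
    ∀ s, Inv r z c s → rank r z c s ≤ N → Halts r z c ok s N := by
  induction N with
  | zero =>
    intro s hI hN'
    by_cases hs : ∃ a, Stops r c s a
    · exact .stop s _ hs (hok s)
    · obtain ⟨s', h⟩ := exists_step hb hI hs
      have := (step_inv hN h hI).2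
      omega
  | succ N ih =>
    intro s hI hN'
    by_cases hs : ∃ a, Stops r c s a
    · exact .stop s _ hs (hok s)
    · refine .step s N hs (exists_step hb hI hs) fun s' h => ?_
      have := step_inv hN h hI
      exact ih s' this.1 (by omega)

theorem inv_start (hb : ∀ q : Fin n × Bool,
      (r (.inl q)).1 = Pi.single q.1 (if q.2 then 1 else -1))
    (h0 : ∀ q, 0 ≤ (r (.inl q)).2) : Inv r z c (0, start m z) := by
  have hinj : Function.Injective fun j : Fin n => (Sum.inl (j, decide (0 ≤ z j)) : Idx n m) :=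
    fun j j' h => (Prod.mk.inj (Sum.inl.inj h)).1
  have hsum : ∀ (y : Idx n m → ℝ) (j : Fin n), (∑ l ∈ start m z, y l • (r l).1) j =
      y (.inl (j, decide (0 ≤ z j))) * (if 0 ≤ z j then 1 else -1) := by
    intro y j
    rw [start, sum_image fun _ _ _ _ h => hinj h, Finset.sum_apply, sum_eq_single_of_mem j (mem_univ j)]
    · simp [hb]
    · intro j' _ h
      simp [hb, h.symm]
  refine inv_of_dual (x := fun j => (if 0 ≤ z j then 1 else -1) * (r (.inl (j, decide (0 ≤ z j)))).2)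
    (Nat.zero_le m) ⟨fun l hl => ?_, ?_, li_of (a := fun l => (r l).1) fun y hy l hl => ?_,
      fun l hl => ?_, fun l hl => ?_⟩ ⟨Sum.elim (fun q => |z q.1|) 0, fun l hl => ?_, ?_⟩
  · obtain ⟨j, -, rfl⟩ := mem_image.1 hl
    exact inl_mem_sys _ _
  · rw [start, card_image_of_injective _ hinj, card_univ, Fintype.card_fin]
  · obtain ⟨j, -, rfl⟩ := mem_image.1 hl
    have := hsum y j
    rw [hy] at this
    split_ifs at this <;> simpa using this.symm
  · obtain ⟨j, -, rfl⟩ := mem_image.1 hl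
    rw [hb, single_dotProduct]
    by_cases h : 0 ≤ z j <;> simp [h]
  · rcases l with ⟨j, b⟩ | i
    · rw [hb, single_dotProduct]
      have h1 := h0 (j, true)
      have h2 := h0 (j, false)
      by_cases h : 0 ≤ z j <;> cases b <;> simp [h] <;> linarith
    · simp [inr_mem_sys] at hl
  · obtain ⟨j, -, rfl⟩ := mem_image.1 hl
    exact abs_nonneg _
  · ext j
    rw [hsum]
    split_ifs with h
    · simp [abs_of_nonneg h]
    · simp [abs_of_neg (not_le.1 h)]

end Pool.Agent.Lib.MP_3b7f8d_lc
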