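import Mathlib
import Pool.Agent.Lib.MP_3b7f8d_lc.Good

/-! Measurability and resampling. -/

namespace Pool.Agent.Lib.MP_3b7f8d_lc

open Finset MeasureTheory
open scoped ENNReal

theorem measurableSet_exists {X Y : Type} [TopologicalSpace X] [MeasurableSpace X]
    [OpensMeasurableSpace X] [NormedAddCommGroup Y] [ProperSpace Y] {C : X → Y → Prop}
    (h : IsClosed {p : X × Y | C p.1 p.2}) : MeasurableSet {x | ∃ y, C x y} := by
  have h1 : {x | ∃ y, C x y} =
      ⋃ k : ℕ, Prod.fst '' {p : X × Metric.closedBall (0 : Y) k | C p.1 p.2} := by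
    ext x
    simp only [Set.mem_ofPred_eq, Set.mem_iUnion, Set.mem_image, Prod.exists, Subtype.exists]
    constructor
    · rintro ⟨y, hy⟩
      obtain ⟨k, hk⟩ := exists_nat_ge ‖y‖
      exact ⟨k, x, y, by simpa using hk, hy, rfl⟩
    · rintro ⟨k, _, y, _, hy, rfl⟩
      exact ⟨y, hy⟩
  rw [h1]
  refine MeasurableSet.iUnion fun k => IsClosed.measurableSet ?_
  have : CompactSpace (Metric.closedBall (0 : Y) k) :=
    isCompact_iff_compactSpace.1 (isCompact_closedBall _ _)
  exact isClosedMap_fst_of_compactSpace _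
    (h.preimage (f := fun p : X × Metric.closedBall (0 : Y) k => (p.1, (p.2 : Y))) (by fun_prop))

theorem isClosed_ball {X ι : Type} [TopologicalSpace X] {B : Finset ι} {C : ι → X → Prop}
    (h : ∀ i, IsClosed {p | C i p}) : IsClosed {p | ∀ i ∈ B, C i p} := by
  simp only [Set.ofPred_forall]
  exact isClosed_iInter fun i => isClosed_iInter fun _ => h i

theorem prod_le_of_section {X Y : Type} [MeasurableSpace X] [MeasurableSpace Y] (μ : Measure X)
    (ν : Measure Y) [SFinite μ] [SFinite ν] {E F : Set (X × Y)} (hE : MeasurableSet E)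
    (hF : MeasurableSet F) {a b : ℝ≥0∞}
    (h : ∀ x, a * ν (Prod.mk x ⁻¹' E) ≤ b * ν (Prod.mk x ⁻¹' F)) :
    a * μ.prod ν E ≤ b * μ.prod ν F := by
  rw [Measure.prod_apply hE, Measure.prod_apply hF,
    ← lintegral_const_mul _ (measurable_measure_prodMk_left hE),
    ← lintegral_const_mul _ (measurable_measure_prodMk_left hF)]
  exact lintegral_mono h

section
variable {ι X : Type} [Fintype ι] [DecidableEq ι] [MeasurableSpace X] (ν : ι → Measure X)
  [∀ i, IsProbabilityMeasure (ν i)]

theorem map_update (k : ι) :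
    ((Measure.pi ν).prod (ν k)).map (fun p => Function.update p.1 k p.2) = Measure.pi ν := by
  refine (Measure.pi_eq fun s hs => ?_).symm
  rw [Measure.map_apply measurable_update' (MeasurableSet.univ_pi hs)]
  have h : (fun p : (ι → X) × X => Function.update p.1 k p.2) ⁻¹' Set.univ.pi s =
      Set.univ.pi (Function.update s k Set.univ) ×ˢ s k := by
    ext ⟨ω, ρ⟩
    simp only [Set.mem_preimage, Set.mem_pi, Set.mem_univ, true_imp_iff, Set.mem_prod]
    constructor
    · intro h
      refine ⟨fun i => ?_, by simpa using h k⟩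
      by_cases hi : i = k
      · simp [hi]
      · simpa [hi] using h i
    · rintro ⟨h1, h2⟩ i
      by_cases hi : i = k
      · simpa [hi] using h2
      · simpa [hi] using h1 i
  rw [h, Measure.prod_prod, Measure.pi_pi, ← prod_erase_mul _ _ (mem_univ k),
    ← prod_erase_mul _ _ (mem_univ k)]
  simp only [Function.update_self, measure_univ, mul_one]
  congr 1
  exact prod_congr rfl fun i hi => by rw [Function.update_of_ne (ne_of_mem_erase hi)]

theorem pi_le_of_update (k : ι) {E F : Set (ι → X)} (hE : MeasurableSet E) (hF : MeasurableSet F)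
    {b : ℝ≥0∞} (h : ∀ ω : ι → X, ν k {ρ | Function.update ω k ρ ∈ E} ≤
      b * ν k {ρ | Function.update ω k ρ ∈ F}) :
    Measure.pi ν E ≤ b * Measure.pi ν F := by
  rw [← map_update ν k, Measure.map_apply measurable_update' hE,
    Measure.map_apply measurable_update' hF, ← one_mul (((Measure.pi ν).prod (ν k)) _)]
  exact prod_le_of_section _ _ (measurable_update' hE) (measurable_update' hF)
    fun ω => by rw [one_mul]; exact h ω

theorem prod_le_of_update {Z : Type} [MeasurableSpace Z] (μ : Measure Z) [SFinite μ] (k : ι)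
    {E F : Set ((ι → X) × Z)} (hE : MeasurableSet E) (hF : MeasurableSet F) {b : ℝ≥0∞}
    (h : ∀ ω z, ν k {ρ | (Function.update ω k ρ, z) ∈ E} ≤
      b * ν k {ρ | (Function.update ω k ρ, z) ∈ F}) :
    (Measure.pi ν).prod μ E ≤ b * (Measure.pi ν).prod μ F := by
  rw [Measure.prod_apply_symm hE, Measure.prod_apply_symm hF,
    ← lintegral_const_mul _ (measurable_measure_prodMk_right hF)]
  exact lintegral_mono fun z => pi_le_of_update ν k (measurable_prodMk_right hE)
    (measurable_prodMk_right hF) fun ω => h ω z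

end

variable {n m : ℕ}

theorem measurableSet_li {ι X : Type} [TopologicalSpace X] [MeasurableSpace X]
    [OpensMeasurableSpace X] {r : X → ι → Row n} (hr : Continuous r) (B : Finset ι) :
    MeasurableSet {p | LinearIndependent ℝ fun i : B => (r p i).1} :=
  (isOpen_setOfPred_linearIndependent.preimage
    (f := fun p => fun i : B => (r p i).1) (by fun_prop)).measurableSet

theorem measurableSet_bfs {ι X : Type} [TopologicalSpace X] [MeasurableSpace X]
    [OpensMeasurableSpace X] {r : X → ι → Row n} (hr : Continuous r) (S B : Finset ι)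
    {C : X → (Fin n → ℝ) → Prop} (hC : IsClosed {p : X × (Fin n → ℝ) | C p.1 p.2}) :
    MeasurableSet {p | ∃ x, IsBFS (r p) S B x ∧ C p x} := by
  have h : {p | ∃ x, IsBFS (r p) S B x ∧ C p x} = {_p | B ⊆ S ∧ B.card = n} ∩
      ({p | LinearIndependent ℝ fun i : B => (r p i).1} ∩
      {p | ∃ x, ((∀ i ∈ B, (r p i).1 ⬝ᵥ x = (r p i).2) ∧
        ∀ i ∈ S, (r p i).1 ⬝ᵥ x ≤ (r p i).2) ∧ C p x}) := by
    ext p
    simp only [IsBFS, Set.mem_ofPred_eq, Set.mem_inter_iff]
    constructor
    · rintro ⟨x, ⟨h1, h2, h3, h4⟩, h5⟩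
      exact ⟨⟨h1, h2⟩, h3, x, h4, h5⟩
    · rintro ⟨⟨h1, h2⟩, h3, x, h4, h5⟩
      exact ⟨x, ⟨h1, h2, h3, h4⟩, h5⟩
  rw [h]
  refine (MeasurableSet.const _).inter ((measurableSet_li hr B).inter (measurableSet_exists ?_))
  refine IsClosed.and (IsClosed.and (isClosed_ball fun i => ?_) (isClosed_ball fun i => ?_)) hC
  · exact isClosed_eq (by fun_prop) (by fun_prop)
  · exact isClosed_le (by fun_prop) (by fun_prop)

theorem measurableSet_mult {ι X : Type} [Fintype ι] [TopologicalSpace X] [MeasurableSpace X]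
    [OpensMeasurableSpace X] {r : X → ι → Row n} (hr : Continuous r) {z c : X → Fin n → ℝ}
    (hz : Continuous z) (hc : Continuous c) {μ : X → ℝ} (hμ : Continuous μ) (B : Finset ι) :
    MeasurableSet {p | ∃ t : ℝ, ∃ y : ι → ℝ, 0 ≤ t ∧ (∀ i ∈ B, μ p ≤ y i) ∧
      z p + t • c p = ∑ i ∈ B, y i • (r p i).1} := by
  have h := measurableSet_exists (X := X) (Y := ℝ × (ι → ℝ))
    (C := fun p q => 0 ≤ q.1 ∧ (∀ i ∈ B, μ p ≤ q.2 i) ∧
      z p + q.1 • c p = ∑ i ∈ B, q.2 i • (r p i).1) (by
      refine IsClosed.and ?_ (IsClosed.and (isClosed_ball fun i => ?_) ?_)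
      · exact isClosed_le (by fun_prop) (by fun_prop)
      · exact isClosed_le (by fun_prop) (by fun_prop)
      · exact isClosed_eq (by fun_prop) (by fun_prop))
  simpa only [Prod.exists] using h

section
variable {X : Type} [TopologicalSpace X] [MeasurableSpace X] [OpensMeasurableSpace X]
  {r : X → Idx n m → Row n} (hr : Continuous r) {z c : X → Fin n → ℝ} (hz : Continuous z)
  (hc : Continuous c)
include hr

theorem measurableSet_prim (S B : Finset (Idx n m)) : MeasurableSet {p | ∃ x, IsBFS (r p) S B x} := by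
  simpa using measurableSet_bfs hr S B (C := fun _ _ => True) isClosed_univ

theorem measurableSet_flat (δ : ℝ) (B : Finset (Idx n m)) (i : Idx n m) :
    MeasurableSet {p | Flat δ (r p) B i} := by
  refine (measurableSet_li hr B).inter (measurableSet_exists ?_)
  refine IsClosed.and ?_ (IsClosed.and (isClosed_ball fun i => ?_) ?_)
  · exact isClosed_eq (by fun_prop) (by fun_prop)
  · exact isClosed_eq (by fun_prop) (by fun_prop)
  · exact isClosed_le (by fun_prop) (by fun_prop)

include hz hc

theorem measurableSet_onDual (B : Finset (Idx n m)) :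
    MeasurableSet {p | OnDual (r p) (z p) (c p) B} :=
  measurableSet_mult hr hz hc (μ := fun _ => 0) continuous_const B

theorem measurableSet_onPath (S B : Finset (Idx n m)) :
    MeasurableSet {p | OnPath (r p) S (z p) (c p) B} :=
  (measurableSet_prim hr S B).inter (measurableSet_onDual hr hz hc B)

theorem measurableSet_goodMult {μ : X → ℝ} (hμ : Continuous μ) (S B : Finset (Idx n m)) :
    MeasurableSet {p | GoodMult (μ p) (r p) S (z p) (c p) B} :=
  (measurableSet_prim hr S B).inter (measurableSet_mult hr hz hc hμ B)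

theorem measurableSet_badSlack (g M : ℝ) (S B : Finset (Idx n m)) (k : Idx n m) :
    MeasurableSet {p | BadSlack g M (r p) S (z p) (c p) B k} := by
  refine (measurableSet_bfs hr S B (C := fun p x => (r p k).2 - (r p k).1 ⬝ᵥ x ≤ g * scale M k x)
    ?_).inter (measurableSet_onDual hr hz hc B)
  refine isClosed_le (by fun_prop) ?_
  rcases k with q | i
  · simp only [scale]
    fun_prop
  · simp only [scale]
    fun_prop

end

end Pool.Agent.Lib.MP_3b7f8d_lc
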