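import Mathlib
import Pool.Agent.Lib.MP_3b7f8d_lc.Meas

/-! Properties of the laws of the rows and of the auxiliary objective. -/

namespace Pool.Agent.Lib.MP_3b7f8d_lc

open Finset MeasureTheory ProbabilityTheory
open scoped ENNReal Pointwise

/-- A probability law on the line with density at most `φ` and first moment at most `κ`. -/
structure Nice (μ : Measure ℝ) (φ κ : ℝ) : Prop where
  prob : IsProbabilityMeasure μ
  le : ∀ s, μ s ≤ ENNReal.ofReal φ * volume s
  mom : ∫⁻ x, ENNReal.ofReal |x| ∂μ ≤ ENNReal.ofReal κ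

theorem lintegral_pert {f : ℝ → ℝ} (hf : Measurable f) {σ : ℝ} (hσ : 0 < σ) (u : ℝ)
    {F : ℝ → ℝ≥0∞} (hF : Measurable F) :
    ∫⁻ x, F x ∂pert f σ u = ∫⁻ y, ENNReal.ofReal (f y) * F (u + σ * y) := by
  rw [pert, lintegral_withDensity_eq_lintegral_mul _ (by fun_prop) hF,
    ← lintegral_add_left_eq_self _ u]
  nth_rewrite 1 [← Real.smul_map_volume_mul_left hσ.ne']
  rw [lintegral_smul_measure, lintegral_map (by fun_prop) (by fun_prop), smul_eq_mul,
    ← lintegral_const_mul _ (by fun_prop)]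
  refine lintegral_congr fun y => ?_
  simp only [Pi.mul_apply, add_sub_cancel_left]
  rw [← mul_assoc, ← ENNReal.ofReal_mul (abs_nonneg _), abs_of_pos hσ, mul_div_cancel_left₀ _ hσ.ne',
    mul_div_cancel₀ _ hσ.ne']

theorem nice_pert {f : ℝ → ℝ} (hf : Measurable f) (h0 : ∀ x, 0 ≤ f x) (h1 : ∀ x, f x ≤ 1)
    (hi : ∫ x, f x = 1) (hm : Integrable fun x => |x| * f x) {σ : ℝ} (hσ : 0 < σ) (hσ1 : σ ≤ 1)
    {u : ℝ} (hu : |u| ≤ 1) : Nice (pert f σ u) (1 / σ) (1 + ∫ x, |x| * f x) := by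
  have hf1 : ∫⁻ x, ENNReal.ofReal (f x) = 1 := by
    rw [← ofReal_integral_eq_lintegral_ofReal (integrable_of_integral_eq_one hi)
      (Filter.Eventually.of_forall h0), hi, ENNReal.ofReal_one]
  refine ⟨⟨?_⟩, fun s => ?_, ?_⟩
  · rw [← lintegral_one, lintegral_pert hf hσ u measurable_const]
    simpa using hf1
  · rw [pert, withDensity_apply', ← setLIntegral_const]
    refine lintegral_mono fun x => ENNReal.ofReal_le_ofReal ?_
    gcongr
    exact h1 _
  · have hpos : ∀ x, 0 ≤ |x| * f x := fun x => mul_nonneg (abs_nonneg x) (h0 x)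
    rw [lintegral_pert hf hσ u (by fun_prop), ENNReal.ofReal_add zero_le_one (integral_nonneg hpos),
      ofReal_integral_eq_lintegral_ofReal hm (Filter.Eventually.of_forall hpos),
      ENNReal.ofReal_one, ← hf1, ← lintegral_add_left (by fun_prop)]
    refine lintegral_mono fun y => ?_
    rw [← ENNReal.ofReal_mul (h0 y), ← ENNReal.ofReal_add (h0 y) (hpos y)]
    refine ENNReal.ofReal_le_ofReal ?_
    have h2 : |u + σ * y| ≤ 1 + |y| := by
      refine (abs_add_le _ _).trans ?_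
      rw [abs_mul, abs_of_pos hσ]
      nlinarith [abs_nonneg y]
    nlinarith [h0 y]

variable {n m : ℕ} {φ κ : ℝ}

theorem pi_slab {μ : Fin n → Measure ℝ} (hμ : ∀ j, Nice (μ j) φ κ) (hφ : 0 ≤ φ) {v : Fin n → ℝ}
    (hv : 0 < ‖v‖) (s : ℝ) {g : ℝ} (hg : 0 ≤ g) :
    Measure.pi μ {a | s ≤ a ⬝ᵥ v ∧ a ⬝ᵥ v ≤ s + g * ‖v‖} ≤ ENNReal.ofReal (φ * g) := by
  have := fun j => (hμ j).prob
  obtain ⟨j, hj⟩ : ∃ j, ‖v‖ ≤ |v j| := by
    by_contra h
    push Not at h
    exact lt_irrefl _ ((pi_norm_lt_iff hv).2 h)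
  have hj0 : v j ≠ 0 := abs_pos.1 (hv.trans_le hj)
  have key := pi_le_of_update μ j (E := {a | s ≤ a ⬝ᵥ v ∧ a ⬝ᵥ v ≤ s + g * ‖v‖}) (F := Set.univ)
    (b := ENNReal.ofReal (φ * g)) ?_ MeasurableSet.univ fun a => ?_
  · simpa using key
  · exact (IsClosed.and (isClosed_le (by fun_prop) (by fun_prop))
      (isClosed_le (by fun_prop) (by fun_prop))).measurableSet
  · have h1 : ∀ x, Function.update a j x ⬝ᵥ v = v j * x + (a ⬝ᵥ v - a j * v j) := by
      intro x
      have : Function.update a j x = a + Pi.single j (x - a j) := by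
        ext i
        by_cases hi : i = j <;> simp [hi]
      rw [this, add_dotProduct, single_dotProduct]
      ring
    set C := a ⬝ᵥ v - a j * v j
    have h2 : {x | Function.update a j x ∈ {a | s ≤ a ⬝ᵥ v ∧ a ⬝ᵥ v ≤ s + g * ‖v‖}} =
        (v j * ·) ⁻¹' Set.Icc (s - C) (s + g * ‖v‖ - C) := by
      ext x
      simp only [Set.mem_ofPred_eq, h1, Set.mem_preimage, Set.mem_Icc, sub_le_iff_le_add,
        le_sub_iff_add_le]
    rw [h2]
    refine ((hμ j).le _).trans ?_
    rw [Real.volume_preimage_mul_left hj0, Real.volume_Icc, ← ENNReal.ofReal_mul (abs_nonneg _),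
      ENNReal.ofReal_mul hφ]
    simp only [Set.mem_univ, Set.ofPred_true, measure_univ, mul_one]
    gcongr
    rw [abs_inv, inv_mul_le_iff₀ (abs_pos.2 hj0)]
    nlinarith

section
variable {μ : Fin n → Measure ℝ} {μ' : Measure ℝ} (hμ : ∀ j, Nice (μ j) φ κ) (hμ' : Nice μ' φ κ)
include hμ hμ'

theorem row_slack (hφ : 0 ≤ φ) (v : Fin n → ℝ) {g : ℝ} (hg : 0 ≤ g) :
    (Measure.pi μ).prod μ' {ρ | 0 ≤ ρ.2 - ρ.1 ⬝ᵥ v ∧ ρ.2 - ρ.1 ⬝ᵥ v ≤ g * max 1 ‖v‖} ≤
      ENNReal.ofReal (φ * g) := by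
  have := fun j => (hμ j).prob
  have := hμ'.prob
  have hE : MeasurableSet {ρ : Row n | 0 ≤ ρ.2 - ρ.1 ⬝ᵥ v ∧ ρ.2 - ρ.1 ⬝ᵥ v ≤ g * max 1 ‖v‖} :=
    (IsClosed.and (isClosed_le (by fun_prop) (by fun_prop))
      (isClosed_le (by fun_prop) (by fun_prop))).measurableSet
  rcases le_total ‖v‖ 1 with h | h
  · rw [Measure.prod_apply hE]
    refine (lintegral_mono (g := fun _ => ENNReal.ofReal (φ * g)) fun a => ?_).trans (by simp)
    refine (hμ'.le _).trans ?_
    rw [ENNReal.ofReal_mul hφ]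
    refine mul_le_mul_right ?_ _
    refine (measure_mono (t := Set.Icc (a ⬝ᵥ v) (a ⬝ᵥ v + g)) fun x hx => ?_).trans (by simp)
    simp only [Set.mem_preimage, Set.mem_ofPred_eq, max_eq_left h] at hx
    exact ⟨by linarith [hx.1], by linarith [hx.2]⟩
  · rw [Measure.prod_apply_symm hE]
    refine (lintegral_mono (g := fun _ => ENNReal.ofReal (φ * g)) fun β => ?_).trans (by simp)
    refine le_trans (measure_mono fun a ha => ?_)
      (pi_slab hμ hφ (one_pos.trans_le h) (β - g * ‖v‖) hg)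
    simp only [Set.mem_preimage, Set.mem_ofPred_eq, max_eq_right h] at ha
    exact ⟨by linarith [ha.2], by linarith [ha.1]⟩

theorem row_flat (hφ : 0 ≤ φ) {h : Fin n → ℝ} (hh : ‖h‖ = 1) {δ : ℝ} (hδ : 0 ≤ δ) :
    (Measure.pi μ).prod μ' {ρ | |ρ.1 ⬝ᵥ h| ≤ δ} ≤ ENNReal.ofReal (φ * (2 * δ)) := by
  have := fun j => (hμ j).prob
  have := hμ'.prob
  refine le_trans (measure_mono (t := {a | -δ ≤ a ⬝ᵥ h ∧ a ⬝ᵥ h ≤ -δ + 2 * δ * ‖h‖} ×ˢ Set.univ)
    fun ρ hρ => ?_) ?_
  · have := abs_le.1 (show |ρ.1 ⬝ᵥ h| ≤ δ from hρ)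
    exact ⟨⟨this.1, by rw [hh]; linarith [this.2]⟩, trivial⟩
  · rw [Measure.prod_prod, measure_univ, mul_one]
    exact pi_slab hμ hφ (by rw [hh]; exact one_pos) _ (by positivity)

theorem row_mom : ∫⁻ ρ, ENNReal.ofReal (‖ρ.1‖ + |ρ.2|) ∂(Measure.pi μ).prod μ' ≤
    (n + 1) * ENNReal.ofReal κ := by
  have := fun j => (hμ j).prob
  have := hμ'.prob
  calc _ ≤ ∫⁻ ρ, (∑ j, ENNReal.ofReal |ρ.1 j|) + ENNReal.ofReal |ρ.2| ∂(Measure.pi μ).prod μ' := by
        refine lintegral_mono fun ρ => ?_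
        rw [← ENNReal.ofReal_sum_of_nonneg fun _ _ => abs_nonneg _,
          ← ENNReal.ofReal_add (by positivity) (abs_nonneg _)]
        refine ENNReal.ofReal_le_ofReal ?_
        gcongr
        exact (pi_norm_le_iff_of_nonneg (by positivity)).2 fun j =>
          single_le_sum (f := fun j => |ρ.1 j|) (fun _ _ => abs_nonneg _) (mem_univ j)
    _ ≤ (∑ _j : Fin n, ENNReal.ofReal κ) + ENNReal.ofReal κ := by
        rw [lintegral_add_right _ (by fun_prop), lintegral_finsetSum _ (by fun_prop)]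
        gcongr with j
        · refine le_trans (le_of_eq ?_) (hμ j).mom
          exact ((measurePreserving_eval μ j).comp measurePreserving_fst).lintegral_comp
            (f := fun x => ENNReal.ofReal |x|) (by fun_prop)
        · refine le_trans (le_of_eq ?_) hμ'.mom
          exact measurePreserving_snd.lintegral_comp (f := fun x => ENNReal.ofReal |x|)
            (by fun_prop)
    _ = _ := by simp [add_mul]

end

theorem exp_Ioi (s : ℝ) : expMeasure 1 (Set.Ioi s) = ENNReal.ofReal (Real.exp (-(max s 0))) := by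
  have := isProbabilityMeasure_expMeasure (r := 1) one_pos
  rw [← measure_cdf (expMeasure 1), StieltjesFunction.measure_Ioi _ (tendsto_cdf_atTop _),
    cdf_expMeasure_eq one_pos]
  split_ifs with h
  · simp [h]
  · simp [(not_le.1 h).le]

theorem exp_Icc (s g : ℝ) (hg : 0 ≤ g) :
    expMeasure 1 (Set.Icc s (s + g)) ≤ ENNReal.ofReal g * expMeasure 1 (Set.Ici s) := by
  have := isProbabilityMeasure_expMeasure (r := 1) one_pos
  have h0 : expMeasure 1 {s} = 0 := withDensity_absolutelyContinuous _ _ (measure_singleton s)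
  calc expMeasure 1 (Set.Icc s (s + g)) ≤ expMeasure 1 ({s} ∪ Set.Ioc s (s + g)) := by
        refine measure_mono fun x hx => ?_
        rcases hx.1.eq_or_lt with h | h
        · exact Or.inl h.symm
        · exact Or.inr ⟨h, hx.2⟩
    _ ≤ expMeasure 1 (Set.Ioc s (s + g)) := (measure_union_le _ _).trans (by rw [h0, zero_add])
    _ ≤ ENNReal.ofReal g * expMeasure 1 (Set.Ioi s) := by
        rw [exp_Ioi, ← measure_cdf (expMeasure 1), StieltjesFunction.measure_Ioc,
          cdf_expMeasure_eq one_pos, cdf_expMeasure_eq one_pos, ← ENNReal.ofReal_mul hg]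
        refine ENNReal.ofReal_le_ofReal ?_
        have h1 := Real.add_one_le_exp (-g)
        split_ifs with h2 h3 h3
        · rw [max_eq_left h3, one_mul, one_mul, neg_add, Real.exp_add]
          nlinarith [Real.exp_pos (-s)]
        · rw [max_eq_right (not_le.1 h3).le]
          have := Real.add_one_le_exp (-(1 * (s + g)))
          simp only [neg_zero, Real.exp_zero]
          linarith
        · linarith
        · simp only [sub_self]
          positivity
    _ ≤ _ := by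
        gcongr
        exact Set.Ioi_subset_Ici_self

theorem exp_compl (Θ : ℝ) (hΘ : 0 ≤ Θ) :
    expMeasure 1 (Set.Icc 0 Θ)ᶜ ≤ ENNReal.ofReal (Real.exp (-Θ)) := by
  have := isProbabilityMeasure_expMeasure (r := 1) one_pos
  have h0 : expMeasure 1 (Set.Iic 0) = 0 := by
    rw [← ofReal_cdf, cdf_expMeasure_eq one_pos]
    simp
  calc _ ≤ expMeasure 1 (Set.Iic 0 ∪ Set.Ioi Θ) := by
        refine measure_mono fun x hx => ?_
        by_contra h
        simp only [Set.mem_union, Set.mem_Iic, Set.mem_Ioi, not_or, not_le, not_lt] at h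
        exact hx ⟨h.1.le, h.2⟩
    _ ≤ _ := (measure_union_le _ _).trans (by rw [h0, zero_add, exp_Ioi, max_eq_left hΘ])

theorem cube_eq : (Set.Icc (-1) 1 : Set (Fin n → ℝ)) = Metric.closedBall 0 1 := by
  ext z
  rw [mem_closedBall_zero_iff, pi_norm_le_iff_of_nonneg zero_le_one, Set.mem_Icc, Pi.le_def,
    Pi.le_def, ← forall_and]
  exact forall_congr' fun j => by rw [Real.norm_eq_abs, abs_le]; simp

instance : IsProbabilityMeasure (auxLaw n) := by
  refine cond_isProbabilityMeasure_of_finite ?_ ?_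
  · rw [cube_eq]
    exact (Metric.measure_closedBall_pos _ _ one_pos).ne'
  · rw [cube_eq]
    exact measure_closedBall_lt_top.ne

theorem aux_shift {C D : Set (Fin n → ℝ)} (hC : ∀ a : ℝ, 0 < a → ∀ z ∈ C, a • z ∈ C)
    {s : Fin n → ℝ} (hs : ‖s‖ ≤ 1 / (4 * (n + 1))) (hD : ∀ z ∈ C, z + s ∈ D) :
    3 * auxLaw n C ≤ 4 * auxLaw n D := by
  set a : ℝ := 1 - 1 / (4 * (n + 1)) with ha
  have h1 : (1 : ℝ) / (4 * (n + 1)) ≤ 1 / 4 := by
    gcongr
    nlinarith [Nat.cast_nonneg (α := ℝ) n]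
  have ha0 : 0 < a := by linarith
  have h2 : 3 ≤ 4 * a ^ n := by
    have h3 := one_add_mul_le_pow (a := -(1 / (4 * ((n : ℝ) + 1)))) (by linarith) n
    have h4 : (n : ℝ) * (1 / (4 * (n + 1))) ≤ 1 / 4 := by
      rw [mul_one_div, div_le_div_iff₀ (by positivity) (by positivity)]
      linarith
    rw [← sub_eq_add_neg] at h3
    linarith
  have h5 : (fun z => z + -s) ⁻¹' (a • (Metric.closedBall 0 1 ∩ C)) ⊆
      Metric.closedBall 0 1 ∩ D := by
    rintro z ⟨w, ⟨hw, hwC⟩, hz⟩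
    have hz' : z = a • w + s := by
      simp only at hz
      rw [hz]
      simp
    rw [mem_closedBall_zero_iff] at hw
    refine ⟨mem_closedBall_zero_iff.2 ?_, hz' ▸ hD _ (hC a ha0 w hwC)⟩
    rw [hz']
    refine (norm_add_le _ _).trans ?_
    rw [norm_smul, Real.norm_of_nonneg ha0.le]
    nlinarith
  have h6 := measure_mono (μ := volume) h5
  rw [measure_preimage_add_right, Measure.addHaar_smul_of_nonneg _ ha0.le, Module.finrank_fin_fun]
    at h6
  rw [auxLaw, cond_apply measurableSet_Icc, cond_apply measurableSet_Icc, cube_eq, mul_left_comm,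
    mul_left_comm 4]
  refine mul_le_mul_right ?_ _
  refine le_trans ?_ (mul_le_mul_right h6 4)
  rw [← mul_assoc]
  gcongr
  rw [← ENNReal.ofReal_ofNat 3, ← ENNReal.ofReal_ofNat 4, ← ENNReal.ofReal_mul (by norm_num)]
  exact ENNReal.ofReal_le_ofReal h2

theorem aux_norm : ∀ᵐ z ∂auxLaw n, ‖z‖ ≤ 1 := by
  have h := ae_cond_mem (μ := (volume : Measure (Fin n → ℝ))) (s := Set.Icc (-1) 1)
    measurableSet_Icc
  filter_upwards [h] with z hz
  rwa [cube_eq, mem_closedBall_zero_iff] at hz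

end Pool.Agent.Lib.MP_3b7f8d_lc
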