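import Mathlib
import Pool.Agent.Lib.MP_3b7f8d_lc.Laws

/-! Probability bounds for the events attached to one basis. -/

namespace Pool.Agent.Lib.MP_3b7f8d_lc

open Finset MeasureTheory ProbabilityTheory
open scoped ENNReal

variable {n m : ℕ}

/-- Size of a row. -/
noncomputable def size : Idx n m → Row n → ℝ
  | .inl _, ρ => ‖ρ.1‖
  | .inr _, ρ => ‖ρ.1‖ + |ρ.2|

/-- Total size of the rows. -/
noncomputable def alpha (r : Idx n m → Row n) : ℝ := 1 + ∑ i, size i (r i)

/-- Threshold for good multipliers. -/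
noncomputable def mu (r : Idx n m → Row n) : ℝ := 1 / (4 * (n + 1) * alpha r)

theorem norm_le_size (i : Idx n m) (ρ : Row n) : ‖ρ.1‖ ≤ size i ρ := by
  rcases i with q | i
  · exact le_rfl
  · exact le_add_of_nonneg_right (abs_nonneg _)

theorem size_nonneg (i : Idx n m) (ρ : Row n) : 0 ≤ size i ρ :=
  (norm_nonneg _).trans (norm_le_size i ρ)

theorem one_le_alpha (r : Idx n m → Row n) : 1 ≤ alpha r :=
  le_add_of_nonneg_right (sum_nonneg fun i _ => size_nonneg i _)

theorem mu_pos (r : Idx n m → Row n) : 0 < mu r := by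
  have := one_le_alpha r
  unfold mu
  positivity

theorem continuous_size (i : Idx n m) : Continuous (size i) := by
  rcases i with q | i
  · exact continuous_fst.norm
  · exact continuous_fst.norm.add continuous_snd.abs

theorem continuous_alpha : Continuous (alpha : (Idx n m → Row n) → ℝ) :=
  continuous_const.add (continuous_finsetSum _ fun i _ =>
    (continuous_size i).comp (continuous_apply i))

theorem continuous_mu : Continuous (mu : (Idx n m → Row n) → ℝ) :=
  continuous_const.div (continuous_const.mul continuous_alpha) fun r => by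
    have := one_le_alpha r
    positivity

/-- The properties of the laws of the rows that the analysis uses. -/
structure RowLaws (ν : Idx n m → Measure (Row n)) (M u : ℝ) : Prop where
  slack : ∀ i v g, 0 ≤ g → ν (.inr i)
    {ρ | 0 ≤ ρ.2 - ρ.1 ⬝ᵥ v ∧ ρ.2 - ρ.1 ⬝ᵥ v ≤ g * max 1 ‖v‖} ≤ ENNReal.ofReal (u * g)
  flat : ∀ i h δ, ‖h‖ = 1 → 0 ≤ δ → ν (.inr i) {ρ | |ρ.1 ⬝ᵥ h| ≤ δ} ≤ ENNReal.ofReal (u * (2 * δ))
  mom : ∀ i, ∫⁻ ρ, ENNReal.ofReal (size i ρ) ∂ν i ≤ ENNReal.ofReal u
  bslack : ∀ q v g, 0 ≤ g → ν (.inl q) {ρ | 0 ≤ ρ.2 - ρ.1 ⬝ᵥ v ∧ ρ.2 - ρ.1 ⬝ᵥ v ≤ g * M} ≤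
    ENNReal.ofReal g * ν (.inl q) {ρ | 0 ≤ ρ.2 - ρ.1 ⬝ᵥ v}
  bshape : ∀ (q : Fin n × Bool) (Θ : ℝ), 0 ≤ Θ → ν (.inl q)
    {ρ | ρ.1 = Pi.single q.1 (if q.2 then 1 else -1) ∧ M ≤ ρ.2 ∧ ρ.2 ≤ (1 + Θ) * M}ᶜ ≤
    ENNReal.ofReal (Real.exp (-Θ))

section update
variable {ι : Type} [DecidableEq ι] {r : ι → Row n} {S B : Finset ι} {k : ι} {ρ : Row n}

theorem update_rows (hk : k ∉ B) : ∀ i ∈ B, Function.update r k ρ i = r i :=
  fun _ hi => Function.update_of_ne (ne_of_mem_of_not_mem hi hk) _ _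

theorem li_update (hk : k ∉ B) :
    (fun i : B => (Function.update r k ρ i).1) = fun i : B => (r i).1 :=
  funext fun i => by rw [update_rows hk i i.2]

theorem isBFS_update_erase (hk : k ∉ B) {x : Fin n → ℝ} :
    IsBFS (Function.update r k ρ) (S.erase k) B x ↔ IsBFS r (S.erase k) B x := by
  unfold IsBFS
  rw [li_update hk]
  refine and_congr_right fun _ => and_congr_right fun _ => and_congr_right fun _ => and_congr
    (forall₂_congr fun i hi => by rw [update_rows hk i hi])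
    (forall₂_congr fun i hi => by rw [update_rows (notMem_erase k S) i hi])

theorem isBFS_erase (hk : k ∉ B) (hS : k ∈ S) {x : Fin n → ℝ} :
    IsBFS r S B x ↔ IsBFS r (S.erase k) B x ∧ 0 ≤ (r k).2 - (r k).1 ⬝ᵥ x := by
  constructor
  · rintro ⟨h1, h2, h3, h4, h5⟩
    exact ⟨⟨subset_erase.2 ⟨h1, hk⟩, h2, h3, h4, fun i hi => h5 i (mem_of_mem_erase hi)⟩,
      sub_nonneg.2 (h5 k hS)⟩
  · rintro ⟨⟨h1, h2, h3, h4, h5⟩, h6⟩
    refine ⟨h1.trans (erase_subset _ _), h2, h3, h4, fun i hi => ?_⟩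
    by_cases h : i = k
    · exact h ▸ sub_nonneg.1 h6
    · exact h5 i (mem_erase.2 ⟨h, hi⟩)

theorem onDual_update (hk : k ∉ B) {z c : Fin n → ℝ} :
    OnDual (Function.update r k ρ) z c B ↔ OnDual r z c B := by
  unfold OnDual IsDual
  refine exists_congr fun t => exists_congr fun y => ?_
  rw [sum_congr rfl fun i hi => by rw [update_rows hk i hi]]

end update

variable {ν : Idx n m → Measure (Row n)} [∀ i, IsProbabilityMeasure (ν i)] {M u : ℝ}
  {c : (Idx n m → Row n) → Fin n → ℝ}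

/-- The event that `B` is on the path. -/
def evE (c : (Idx n m → Row n) → Fin n → ℝ) (S B : Finset (Idx n m)) :
    Set ((Idx n m → Row n) × (Fin n → ℝ)) := {p | OnPath p.1 S p.2 (c p.1) B}

/-- The event of good multipliers. -/
def evM (c : (Idx n m → Row n) → Fin n → ℝ) (S B : Finset (Idx n m)) :
    Set ((Idx n m → Row n) × (Fin n → ℝ)) := {p | GoodMult (mu p.1) p.1 S p.2 (c p.1) B}

/-- The event of a bad slack. -/
def evS (c : (Idx n m → Row n) → Fin n → ℝ) (g M : ℝ) (S B : Finset (Idx n m)) (k : Idx n m) :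
    Set ((Idx n m → Row n) × (Fin n → ℝ)) := {p | BadSlack g M p.1 S p.2 (c p.1) B k}

theorem meas_evE (hc : Continuous c) (S B : Finset (Idx n m)) : MeasurableSet (evE c S B) :=
  measurableSet_onPath continuous_fst continuous_snd (hc.comp continuous_fst) S B

theorem meas_evM (hc : Continuous c) (S B : Finset (Idx n m)) : MeasurableSet (evM c S B) :=
  measurableSet_goodMult continuous_fst continuous_snd (hc.comp continuous_fst)
    (continuous_mu.comp continuous_fst) S B

theorem meas_evS (hc : Continuous c) (g M : ℝ) (S B : Finset (Idx n m)) (k : Idx n m) :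
    MeasurableSet (evS c g M S B k) :=
  measurableSet_badSlack continuous_fst continuous_snd (hc.comp continuous_fst) g M S B k

theorem prob_mult (hc : Continuous c) (S B : Finset (Idx n m)) :
    3 * (Measure.pi ν).prod (auxLaw n) (evE c S B) ≤
      4 * (Measure.pi ν).prod (auxLaw n) (evM c S B) := by
  refine prod_le_of_section _ _ (meas_evE hc S B) (meas_evM hc S B) fun r => ?_
  refine aux_shift (s := mu r • ∑ i ∈ B, (r i).1) ?_ ?_ ?_
  · rintro a ha z ⟨h, t, y, ht, hy, hw⟩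
    refine ⟨h, a * t, fun i => a * y i, mul_nonneg ha.le ht, fun i hi => mul_nonneg ha.le (hy i hi),
      ?_⟩
    simp only [mul_smul] at hw ⊢
    rw [← smul_sum, ← hw, smul_add]
  · have h1 : ‖∑ i ∈ B, (r i).1‖ ≤ alpha r := by
      refine (norm_sum_le _ _).trans ((sum_le_sum fun i _ => norm_le_size i _).trans ?_)
      refine le_trans ?_ (le_add_of_nonneg_left zero_le_one)
      exact sum_le_sum_of_subset_of_nonneg (subset_univ _) fun i _ _ => size_nonneg i _
    have h2 := one_le_alpha r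
    rw [norm_smul, Real.norm_of_nonneg (mu_pos r).le]
    calc _ ≤ mu r * alpha r := by gcongr; exact (mu_pos r).le
      _ = _ := by unfold mu; field_simp
  · rintro z ⟨h, t, y, ht, hy, hw⟩
    refine ⟨h, t, fun i => y i + mu r, ht, fun i hi => le_add_of_nonneg_left (hy i hi), ?_⟩
    simp only [add_smul, sum_add_distrib] at hw ⊢
    rw [← smul_sum, ← hw]
    abel

theorem slack_section {S B : Finset (Idx n m)} {k : Idx n m} (hk : k ∉ B) (hS : k ∈ S)
    (hinv : ∀ r ρ, c (Function.update r k ρ) = c r) (g : ℝ) (r : Idx n m → Row n)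
    (z : Fin n → ℝ) : {ρ | (Function.update r k ρ, z) ∈ evS c g M S B k} = ∅ ∨ ∃ x,
      {ρ | (Function.update r k ρ, z) ∈ evS c g M S B k} ⊆
        {ρ | 0 ≤ ρ.2 - ρ.1 ⬝ᵥ x ∧ ρ.2 - ρ.1 ⬝ᵥ x ≤ g * scale M k x} ∧
      (∀ ρ, (Function.update r k ρ, z) ∈ evE c (S.erase k) B) ∧
      {ρ | 0 ≤ ρ.2 - ρ.1 ⬝ᵥ x} ⊆ {ρ | (Function.update r k ρ, z) ∈ evE c S B} := by
  refine (Set.eq_empty_or_nonempty _).imp id ?_
  rintro ⟨ρ₀, ⟨x, hx, -⟩, hd⟩
  simp only [hinv, onDual_update hk] at hd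
  have hx' := isBFS_update_erase hk |>.1 ((isBFS_erase hk hS).1 hx).1
  refine ⟨x, ?_, fun ρ => ⟨⟨x, (isBFS_update_erase hk).2 hx'⟩, ?_⟩, fun ρ hρ => ⟨⟨x, ?_⟩, ?_⟩⟩
  · rintro ρ ⟨⟨x', h1, h2⟩, -⟩
    have h3 := (isBFS_erase hk hS).1 h1
    obtain rfl := hx'.unique ((isBFS_update_erase hk).1 h3.1)
    simp only [Function.update_self] at h2 h3
    exact ⟨h3.2, h2⟩
  · simpa only [hinv, onDual_update hk] using hd
  · exact (isBFS_erase hk hS).2 ⟨(isBFS_update_erase hk).2 hx', by simpa using hρ⟩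
  · simpa only [hinv, onDual_update hk] using hd

theorem prob_slack_inr (hν : RowLaws ν M u) (hc : Continuous c) {S B : Finset (Idx n m)}
    {i : Fin m} (hk : .inr i ∉ B) (hS : .inr i ∈ S)
    (hinv : ∀ r ρ, c (Function.update r (.inr i) ρ) = c r) {g : ℝ} (hg : 0 ≤ g) :
    (Measure.pi ν).prod (auxLaw n) (evS c g M S B (.inr i)) ≤
      ENNReal.ofReal (u * g) * (Measure.pi ν).prod (auxLaw n) (evE c (S.erase (.inr i)) B) := by
  refine prod_le_of_update ν _ (.inr i) (meas_evS hc _ _ _ _ _) (meas_evE hc _ _) fun r z => ?_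
  rcases slack_section (M := M) hk hS hinv g r z with h | ⟨x, h1, h2, -⟩
  · rw [h]
    simp
  · rw [Set.eq_univ_of_forall (s := {ρ | (Function.update r (.inr i) ρ, z) ∈
      evE c (S.erase (.inr i)) B}) h2, measure_univ, mul_one]
    exact (measure_mono h1).trans (hν.slack i x g hg)

theorem prob_slack_inl (hν : RowLaws ν M u) (hc : Continuous c) {S B : Finset (Idx n m)}
    {q : Fin n × Bool} (hk : .inl q ∉ B) (hS : .inl q ∈ S)
    (hinv : ∀ r ρ, c (Function.update r (.inl q) ρ) = c r) {g : ℝ} (hg : 0 ≤ g) :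
    (Measure.pi ν).prod (auxLaw n) (evS c g M S B (.inl q)) ≤
      ENNReal.ofReal g * (Measure.pi ν).prod (auxLaw n) (evE c S B) := by
  refine prod_le_of_update ν _ (.inl q) (meas_evS hc _ _ _ _ _) (meas_evE hc _ _) fun r z => ?_
  rcases slack_section (M := M) hk hS hinv g r z with h | ⟨x, h1, -, h2⟩
  · rw [h]
    simp
  · exact (measure_mono h1).trans ((hν.bslack q x g hg).trans (by gcongr))

theorem prob_flat (hν : RowLaws ν M u) {B : Finset (Idx n m)} (hB : B.card = n) (i : Fin m)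
    {δ : ℝ} (hδ : 0 ≤ δ) :
    Measure.pi ν {r | Flat δ r B (.inr i)} ≤ ENNReal.ofReal (u * (2 * δ)) := by
  have key := pi_le_of_update ν (.inr i) (measurableSet_flat continuous_id δ B (.inr i))
    MeasurableSet.univ (b := ENNReal.ofReal (u * (2 * δ))) fun r => ?_
  · simpa using key
  simp only [Set.mem_univ, Set.ofPred_true, measure_univ, mul_one, Set.mem_ofPred_eq, id]
  rcases Set.eq_empty_or_nonempty {ρ | Flat δ (Function.update r (.inr i) ρ) B (.inr i)} with
    h | ⟨ρ₀, hl, h₀, hn, ho, -⟩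
  · rw [h]
    simp
  refine le_trans (measure_mono ?_) (hν.flat i h₀ δ hn hδ)
  rintro ρ ⟨-, h, hn', ho', hδ'⟩
  have e : ∀ j ∈ B.erase (.inr i), ∀ ρ', Function.update r (.inr i) ρ' j = r j :=
    fun j hj ρ' => update_rows (notMem_erase _ B) j hj
  have h1 : (ρ₀.1 ⬝ᵥ h) • h₀ = (ρ₀.1 ⬝ᵥ h₀) • h := by
    refine eq_of_dot hB hl fun j hj => ?_
    rw [dotProduct_smul, dotProduct_smul]
    by_cases hji : j = .inr i
    · rw [hji, Function.update_self, smul_eq_mul, smul_eq_mul, mul_comm]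
    · have hj' := mem_erase.2 ⟨hji, hj⟩
      have h2 := ho' j hj'
      rw [e j hj', ← e j hj' ρ₀] at h2
      rw [ho j hj', h2, smul_zero, smul_zero]
  have h2 : ρ₀.1 ⬝ᵥ h₀ ≠ 0 := by
    intro h0
    have : h₀ = 0 := eq_zero_of_dot hB hl fun j hj => by
      by_cases hji : j = .inr i
      · rw [hji, Function.update_self, h0]
      · exact ho j (mem_erase.2 ⟨hji, hj⟩)
    rw [this, norm_zero] at hn
    exact zero_ne_one hn
  have h3 := congrArg norm h1
  rw [norm_smul, norm_smul, hn, hn', mul_one, mul_one, Real.norm_eq_abs, Real.norm_eq_abs] at h3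
  have h4 := congrArg (fun v => |ρ.1 ⬝ᵥ v|) h1
  simp only [dotProduct_smul, smul_eq_mul, abs_mul, h3] at h4
  rw [Function.update_self] at hδ'
  show |ρ.1 ⬝ᵥ h₀| ≤ δ
  rwa [mul_left_cancel₀ (abs_ne_zero.2 h2) h4]

theorem lintegral_alpha (hν : RowLaws ν M u) (hu : 1 ≤ u) (hn : (n : ℝ) ≤ u) (hm : (m : ℝ) ≤ u) :
    ∫⁻ r, ENNReal.ofReal (alpha r) ∂Measure.pi ν ≤ ENNReal.ofReal (4 * u ^ 2) := by
  have h1 : ∀ r : Idx n m → Row n, ENNReal.ofReal (alpha r) =
      1 + ∑ i, ENNReal.ofReal (size i (r i)) := by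
    intro r
    rw [alpha, ENNReal.ofReal_add zero_le_one (sum_nonneg fun i _ => size_nonneg i _),
      ENNReal.ofReal_one, ENNReal.ofReal_sum_of_nonneg fun i _ => size_nonneg i _]
  have h2 : ∀ i : Idx n m, Measurable fun ρ => ENNReal.ofReal (size i ρ) :=
    fun i => (continuous_size i).measurable.ennreal_ofReal
  simp only [h1]
  rw [lintegral_add_left measurable_const,
    lintegral_finsetSum (f := fun i (r : Idx n m → Row n) => ENNReal.ofReal (size i (r i))) _
      fun i _ => (h2 i).comp (measurable_pi_apply i)]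
  calc _ ≤ 1 + ∑ _i : Idx n m, ENNReal.ofReal u := by
        gcongr with i
        · simp
        · exact ((measurePreserving_eval ν i).lintegral_comp (h2 i)).le.trans (hν.mom i)
    _ = ENNReal.ofReal (1 + (n * 2 + m : ℕ) * u) := by
        rw [ENNReal.ofReal_add zero_le_one (by positivity), ENNReal.ofReal_mul (by positivity),
          ENNReal.ofReal_natCast]
        simp
    _ ≤ _ := by
        refine ENNReal.ofReal_le_ofReal ?_
        push_cast
        nlinarith

end Pool.Agent.Lib.MP_3b7f8d_lc
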