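import Mathlib
import Pool.Agent.Lib.MP_3b7f8d_lc.Events

/-! The expected length of a shadow path with a random auxiliary objective. -/

namespace Pool.Agent.Lib.MP_3b7f8d_lc

open Finset MeasureTheory ProbabilityTheory
open scoped ENNReal

variable {n m : ℕ} {ν : Idx n m → Measure (Row n)} [∀ i, IsProbabilityMeasure (ν i)] {M u : ℝ}
  {c : (Idx n m → Row n) → Fin n → ℝ}

/-- The exceptional event. -/
def exc (M Θ δ K : ℝ) : Set (Idx n m → Row n) :=
  (⋃ q : Fin n × Bool, (fun r => r (.inl q)) ⁻¹'
    {ρ | ρ.1 = Pi.single q.1 (if q.2 then 1 else -1) ∧ M ≤ ρ.2 ∧ ρ.2 ≤ (1 + Θ) * M}ᶜ) ∪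
  (⋃ p : {B : Finset (Idx n m) // B.card = n} × Fin m, {r | Flat δ r p.1 (.inr p.2)}) ∪
  {r | ENNReal.ofReal K ≤ ENNReal.ofReal (alpha r)}

theorem meas_shape (M Θ : ℝ) (a : Fin n → ℝ) :
    MeasurableSet {ρ : Row n | ρ.1 = a ∧ M ≤ ρ.2 ∧ ρ.2 ≤ (1 + Θ) * M} :=
  (IsClosed.and (isClosed_eq (by fun_prop) (by fun_prop)) (IsClosed.and
    (isClosed_le (by fun_prop) (by fun_prop))
    (isClosed_le (by fun_prop) (by fun_prop)))).measurableSet

theorem meas_exc (M Θ δ K : ℝ) : MeasurableSet (exc M Θ δ K : Set (Idx n m → Row n)) := by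
  unfold exc
  refine MeasurableSet.union (MeasurableSet.union (MeasurableSet.iUnion fun q => ?_)
    (MeasurableSet.iUnion fun p => ?_)) ?_
  · exact measurable_pi_apply _ (meas_shape _ _ _).compl
  · exact measurableSet_flat continuous_id _ _ _
  · exact measurableSet_le measurable_const continuous_alpha.measurable.ennreal_ofReal

theorem prob_exc (hν : RowLaws ν M u) (hu : 1 ≤ u) (hn : (n : ℝ) ≤ u) (hm : (m : ℝ) ≤ u) :
    ENNReal.ofReal (2 ^ (n * 2 + m)) * Measure.pi ν (exc M (2 * (n * 2 + m) + 1)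
      (1 / (2 * u ^ 2 * (2 ^ (n * 2 + m)) ^ 2)) (4 * u ^ 2 * 2 ^ (n * 2 + m))) ≤ 3 := by
  set D : ℝ := 2 ^ (n * 2 + m) with hD
  have hD0 : 0 < D := by positivity
  refine (mul_le_mul_right ((measure_union_le _ _).trans
    (add_le_add_left (measure_union_le _ _) _)) _).trans ?_
  rw [mul_add, mul_add, show (3 : ℝ≥0∞) = 1 + 1 + 1 by norm_num]
  gcongr
  · refine (mul_le_mul_right ((measure_iUnion_fintype_le _ _).trans (sum_le_sum
      (g := fun _ => ENNReal.ofReal (Real.exp (-(2 * (n * 2 + m) + 1)))) fun q _ => ?_)) _).trans ?_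
    · rw [(measurePreserving_eval ν _).measure_preimage (meas_shape _ _ _).compl.nullMeasurableSet]
      exact hν.bshape q _ (by positivity)
    · rw [sum_const, nsmul_eq_mul, ← ENNReal.ofReal_natCast, ← ENNReal.ofReal_mul (by positivity),
        ← ENNReal.ofReal_mul hD0.le, ENNReal.ofReal_le_one, Real.exp_neg, ← mul_assoc,
        mul_inv_le_iff₀ (Real.exp_pos _), one_mul]
      have h1 : D ≤ Real.exp (n * 2 + m) := by
        rw [hD, show (n * 2 + m : ℝ) = (n * 2 + m : ℕ) * 1 by push_cast; ring, Real.exp_nat_mul]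
        gcongr
        linarith [Real.add_one_le_exp 1]
      have h2 := Real.add_one_le_exp (n * 2 + m + 1)
      rw [show (2 * (n * 2 + m) + 1 : ℝ) = (n * 2 + m) + (n * 2 + m + 1) by ring, Real.exp_add]
      gcongr
      simp only [card_univ, Fintype.card_prod, Fintype.card_fin, Fintype.card_bool]
      push_cast
      linarith [Nat.cast_nonneg (α := ℝ) m]
  · refine (mul_le_mul_right ((measure_iUnion_fintype_le _ _).trans (sum_le_sum
      fun p _ => prob_flat hν p.1.2 p.2 (by positivity))) _).trans ?_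
    rw [sum_const, nsmul_eq_mul, ← ENNReal.ofReal_natCast, ← ENNReal.ofReal_mul (by positivity),
      ← ENNReal.ofReal_mul hD0.le, ENNReal.ofReal_le_one]
    have h1 : (Fintype.card {B : Finset (Idx n m) // B.card = n} : ℝ) ≤ D := by
      have := Fintype.card_subtype_le fun B : Finset (Idx n m) => B.card = n
      rw [Fintype.card_finset] at this
      simp only [Fintype.card_sum, Fintype.card_prod, Fintype.card_fin, Fintype.card_bool] at this
      rw [hD]
      exact_mod_cast this
    rw [card_univ, Fintype.card_prod, Fintype.card_fin]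
    push_cast
    calc _ ≤ D * (D * u * (u * (2 * (1 / (2 * u ^ 2 * D ^ 2))))) := by gcongr
      _ = 1 := by field_simp
  · have h1 := (mul_meas_ge_le_lintegral (μ := Measure.pi ν)
      continuous_alpha.measurable.ennreal_ofReal (ENNReal.ofReal (4 * u ^ 2 * D))).trans
      (lintegral_alpha hν hu hn hm)
    nth_rewrite 1 [ENNReal.ofReal_mul (by positivity)] at h1
    rw [mul_assoc] at h1
    refine (ENNReal.mul_le_mul_iff_right (a := ENNReal.ofReal (4 * u ^ 2)) ?_
      ENNReal.ofReal_ne_top).1 (by rwa [mul_one])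
    exact (ENNReal.ofReal_pos.2 (by positivity)).ne'

/-- The event that `B` is a good basis of the path. -/
def evG (c : (Idx n m → Row n) → Fin n → ℝ) (g M : ℝ) (S B : Finset (Idx n m)) :
    Set ((Idx n m → Row n) × (Fin n → ℝ)) := evM c S B \ ⋃ k ∈ S \ B, evS c g M S B k

theorem sum_good (hν : RowLaws ν M u) (hc : Continuous c) (hM : 0 < M) (hu : 1 ≤ u)
    (hn : (n : ℝ) ≤ u) (hm : (m : ℝ) ≤ u) {S : Finset (Idx n m)} (hS : ∀ q, Sum.inl q ∈ S) :
    ∑ B, (Measure.pi ν).prod (auxLaw n) (evG c (1 / (16 * u ^ 2)) M S B) ≤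
      ENNReal.ofReal (164000 * u ^ 11) := by
  classical
  set D : ℝ := 2 ^ (n * 2 + m) with hD
  have hD0 : 0 < D := by positivity
  set X : Set (Idx n m → Row n) := exc M (2 * (n * 2 + m) + 1)
      (1 / (2 * u ^ 2 * D ^ 2)) (4 * u ^ 2 * D) with hX
  have hXm : MeasurableSet (Prod.fst ⁻¹' X : Set ((Idx n m → Row n) × (Fin n → ℝ))) :=
    measurable_fst (meas_exc _ _ _ _)
  have hG : ∀ B, MeasurableSet (evG c (1 / (16 * u ^ 2)) M S B) := fun B =>
    (meas_evM hc S B).diff (Finset.measurableSet_biUnion _ fun k _ => meas_evS hc _ _ _ _ _)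
  have hz : ∀ᵐ p ∂(Measure.pi ν).prod (auxLaw n), ‖p.2‖ ≤ 1 :=
    measurePreserving_snd.quasiMeasurePreserving.ae aux_norm
  simp only [← lintegral_indicator_one (hG _)]
  rw [← lintegral_finsetSum _ fun B _ => measurable_one.indicator (hG B)]
  calc _ ≤ ∫⁻ p, ENNReal.ofReal (40980 * u ^ 9) * ENNReal.ofReal (alpha p.1) +
        (Prod.fst ⁻¹' X).indicator (fun _ => ENNReal.ofReal D) p
          ∂(Measure.pi ν).prod (auxLaw n) := by
        refine lintegral_mono_ae (hz.mono fun p hp => ?_)
        have h1 : ∑ B, (evG c (1 / (16 * u ^ 2)) M S B).indicator (1 : (Idx n m → Row n) × (Fin n → ℝ) → ℝ≥0∞) p =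
            ENNReal.ofReal (univ.filter fun B => p ∈ evG c (1 / (16 * u ^ 2)) M S B).card := by
          rw [ENNReal.ofReal_natCast, card_filter]
          push_cast
          exact sum_congr rfl fun B _ => by simp [Set.indicator_apply]
        rw [h1]
        by_cases hp' : p ∈ Prod.fst ⁻¹' X
        · rw [Set.indicator_of_mem hp']
          refine le_add_left (ENNReal.ofReal_le_ofReal ?_)
          have := card_le_univ (univ.filter fun B => p ∈ evG c (1 / (16 * u ^ 2)) M S B)
          rw [Fintype.card_finset] at this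
          simp only [Fintype.card_sum, Fintype.card_prod, Fintype.card_fin, Fintype.card_bool]
            at this
          rw [hD]
          exact_mod_cast this
        refine le_add_right ?_
        rw [← ENNReal.ofReal_mul (by positivity)]
        refine ENNReal.ofReal_le_ofReal ?_
        simp only [hX, exc, Set.mem_preimage, Set.mem_union, Set.mem_iUnion, not_or, not_exists,
          Set.mem_compl_iff, not_not, Set.mem_ofPred_eq, not_le] at hp'
        obtain ⟨⟨hb, hf⟩, hK⟩ := hp'
        have ha := one_le_alpha p.1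
        have hK' : ∑ i : Fin m, |(p.1 (.inr i)).2| ≤ 4 * u ^ 2 * D := by
          refine le_trans ?_ ((ENNReal.ofReal_lt_ofReal_iff (by positivity)).1 hK).le
          rw [alpha, Fintype.sum_sum_type, ← add_assoc]
          refine le_trans (sum_le_sum fun i _ => ?_) (le_add_of_nonneg_left
            (add_nonneg zero_le_one (sum_nonneg fun q _ => size_nonneg _ _)))
          exact le_add_of_nonneg_left (norm_nonneg _)
        have hn0 : (0 : ℝ) ≤ n := Nat.cast_nonneg n
        have hm0 : (0 : ℝ) ≤ m := Nat.cast_nonneg m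
        have hJ : 4 * u ^ 2 * D / (1 / (2 * u ^ 2 * D ^ 2)) ≤
            2 ^ ((n * 2 + m) * 3 + ⌈8 * u ^ 4⌉₊) := by
          rw [pow_add, pow_mul, ← hD]
          calc _ = D ^ 3 * (8 * u ^ 4) := by field_simp; ring
            _ ≤ _ := by
              gcongr
              refine (Nat.le_ceil _).trans ?_
              exact_mod_cast Nat.lt_two_pow_self.le
        refine (card_good (c := c p.1) (Θ := 1 + (2 * (n * 2 + m) + 1)) hb hS hp (by linarith) hM
          (mu_pos p.1) (g := 1 / (16 * u ^ 2)) (by positivity) (by positivity)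
          (fun B hB i _ => hf (⟨B, hB⟩, i)) hK' hJ _ fun B hB => ?_).trans ?_
        · obtain ⟨h2, h3⟩ := (mem_filter.1 hB).2
          exact ⟨h2, fun k hk h => h3 (Set.mem_iUnion₂.2 ⟨k, hk, h⟩)⟩
        · have h2 : (((n * 2 + m) * 3 + ⌈8 * u ^ 4⌉₊ : ℕ) : ℝ) + 2 ≤ 20 * u ^ 4 := by
            have h3 := (Nat.ceil_lt_add_one (a := 8 * u ^ 4) (by positivity)).le
            have h4 : u ≤ u ^ 4 := le_self_pow₀ hu (by norm_num)
            push_cast
            linarith
          have h3 : 2 * (n * (1 + (2 * (n * 2 + m) + 1))) / (mu p.1 * (1 / (16 * u ^ 2))) + 1 ≤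
              2049 * u ^ 5 * alpha p.1 := by
            have h4 : 1 ≤ u ^ 5 * alpha p.1 := one_le_mul_of_one_le_of_one_le (one_le_pow₀ hu) ha
            calc _ = 128 * (n * (n + 1) * (1 + (2 * (n * 2 + m) + 1))) * u ^ 2 * alpha p.1 + 1 := by
                  unfold mu
                  field_simp
                  ring
              _ ≤ 128 * (u * (2 * u) * (8 * u)) * u ^ 2 * alpha p.1 + u ^ 5 * alpha p.1 := by
                  gcongr <;> linarith
              _ = _ := by ring
          calc _ ≤ 20 * u ^ 4 * (2049 * u ^ 5 * alpha p.1) := by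
                have := mu_pos p.1
                gcongr
            _ = _ := by ring
    _ ≤ ENNReal.ofReal (40980 * u ^ 9) * ENNReal.ofReal (4 * u ^ 2) + 3 := by
        have hα : Measurable fun r : Idx n m → Row n => ENNReal.ofReal (alpha r) :=
          continuous_alpha.measurable.ennreal_ofReal
        rw [lintegral_add_right _ (measurable_const.indicator hXm), lintegral_indicator_const hXm,
          lintegral_const_mul _ (f := fun p : (Idx n m → Row n) × (Fin n → ℝ) =>
            ENNReal.ofReal (alpha p.1)) (hα.comp measurable_fst),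
          measurePreserving_fst.lintegral_comp hα,
          measurePreserving_fst.measure_preimage (meas_exc _ _ _ _).nullMeasurableSet]
        gcongr
        · exact lintegral_alpha hν hu hn hm
        · exact prob_exc hν hu hn hm
    _ ≤ _ := by
        rw [← ENNReal.ofReal_mul (by positivity), ← ENNReal.ofReal_ofNat 3,
          ← ENNReal.ofReal_add (by positivity) (by positivity)]
        refine ENNReal.ofReal_le_ofReal ?_
        have : 1 ≤ u ^ 11 := one_le_pow₀ hu
        nlinarith

theorem path_bound (hν : RowLaws ν M u) (hc : Continuous c) (hM : 0 < M) (hu : 1 ≤ u)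
    (hn : (n : ℝ) ≤ u) (hm : (m : ℝ) ≤ u) {S₀ : Finset (Idx n m)} (hS₀ : ∀ q, Sum.inl q ∈ S₀)
    (hinv : ∀ k ∈ S₀, ∀ r ρ, c (Function.update r k ρ) = c r) :
    ∑ B, (Measure.pi ν).prod (auxLaw n) (evE c S₀ B) ≤ ENNReal.ofReal (328000 * u ^ 11) := by
  classical
  set P := (Measure.pi ν).prod (auxLaw n) with hP
  set g : ℝ := 1 / (16 * u ^ 2) with hg
  have hg0 : 0 < g := by positivity
  obtain ⟨S, hS, hmax⟩ := exists_max_image
    (univ.filter fun S : Finset (Idx n m) => S ⊆ S₀ ∧ ∀ q, Sum.inl q ∈ S)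
    (fun S => ∑ B, P (evE c S B)) ⟨S₀, mem_filter.2 ⟨mem_univ _, Subset.rfl, hS₀⟩⟩
  refine (hmax S₀ (mem_filter.2 ⟨mem_univ _, Subset.rfl, hS₀⟩)).trans ?_
  obtain ⟨-, hS1, hS2⟩ := mem_filter.1 hS
  set T := ∑ B, P (evE c S B) with hT
  have hTfin : T ≠ ∞ := ENNReal.sum_ne_top.2 fun B _ => measure_ne_top _ _
  have h1 : ∀ k ∈ S, ∑ B, (if k ∈ B then 0 else P (evS c g M S B k)) ≤
      ENNReal.ofReal (u * g) * T := by
    intro k hk
    rcases k with q | i
    · rw [hT, mul_sum]
      refine sum_le_sum fun B _ => ?_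
      split_ifs with h
      · exact zero_le
      · refine (prob_slack_inl hν hc h hk (hinv _ (hS1 hk)) hg0.le).trans ?_
        gcongr
        nlinarith
    · refine le_trans ?_ (mul_le_mul_right (hmax (S.erase (.inr i)) (mem_filter.2 ⟨mem_univ _,
        (erase_subset _ _).trans hS1, fun q => mem_erase.2 ⟨Sum.inl_ne_inr, hS2 q⟩⟩)) _)
      rw [mul_sum]
      refine sum_le_sum fun B _ => ?_
      split_ifs with h
      · exact zero_le
      · exact prob_slack_inr hν hc h hk (hinv _ (hS1 hk)) hg0.le
  have h2 : ∀ B, P (evM c S B) ≤ P (evG c g M S B) +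
      ∑ k ∈ S, (if k ∈ B then 0 else P (evS c g M S B k)) := by
    intro B
    refine (measure_mono (Set.subset_sdiff_union _ (⋃ k ∈ S \ B, evS c g M S B k))).trans
      ((measure_union_le _ _).trans (add_le_add_right ((measure_biUnion_finset_le _ _).trans
        (le_of_eq ?_)) _))
    rw [sdiff_eq_filter, sum_filter]
    exact sum_congr rfl fun k _ => by split_ifs <;> rfl
  have h3 : 3 * T ≤ 4 * ENNReal.ofReal (164000 * u ^ 11) + T := by
    calc 3 * T ≤ ∑ B, 4 * (P (evG c g M S B) +
          ∑ k ∈ S, (if k ∈ B then 0 else P (evS c g M S B k))) := by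
          rw [hT, mul_sum]
          exact sum_le_sum fun B _ => (prob_mult hc S B).trans (mul_le_mul_right (h2 B) _)
      _ ≤ 4 * (ENNReal.ofReal (164000 * u ^ 11) + ∑ _k ∈ S, ENNReal.ofReal (u * g) * T) := by
          rw [← mul_sum, sum_add_distrib, sum_comm]
          gcongr with k hk
          · exact sum_good hν hc hM hu hn hm hS2
          · exact h1 k hk
      _ ≤ _ := by
          rw [mul_add, sum_const, nsmul_eq_mul, ← mul_assoc, ← mul_assoc]
          gcongr
          refine mul_le_of_le_one_left zero_le ?_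
          rw [← ENNReal.ofReal_ofNat 4, ← ENNReal.ofReal_natCast,
            ← ENNReal.ofReal_mul (by positivity), ← ENNReal.ofReal_mul (by positivity),
            ENNReal.ofReal_le_one]
          have h4 : (S.card : ℝ) ≤ n * 2 + m := by
            have := card_le_univ S
            simp only [Fintype.card_sum, Fintype.card_prod, Fintype.card_fin, Fintype.card_bool]
              at this
            exact_mod_cast this
          calc _ ≤ 4 * (4 * u) * (u * g) := by gcongr; linarith
            _ = 1 := by rw [hg]; field_simp; norm_num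
  rw [show (3 : ℝ≥0∞) = 2 + 1 by norm_num, add_mul, one_mul, ENNReal.add_le_add_iff_right hTfin,
    show (4 : ℝ≥0∞) = 2 * 2 by norm_num, mul_assoc,
    ENNReal.mul_le_mul_iff_right (by norm_num) (by norm_num)] at h3
  refine h3.trans (le_of_eq ?_)
  rw [← ENNReal.ofReal_ofNat 2, ← ENNReal.ofReal_mul (by norm_num)]
  congr 1
  ring

end Pool.Agent.Lib.MP_3b7f8d_lc
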