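import Mathlib
import Pool.Agent.Lib.MP_3b7f8d_lc.Main
import Pool.Agent.Lib.MP_3b7f8d_lc.Run

/-! Genericity, large boxes and the concrete laws. -/

namespace Pool.Agent.Lib.MP_3b7f8d_lc

open Finset Filter Topology MeasureTheory ProbabilityTheory
open scoped ENNReal

variable {n m : ℕ}

theorem ae_nondeg (r : Idx n m → Row n) (w : Fin n → ℝ) : ∀ᵐ z ∂auxLaw n, Nondeg r z w := by
  refine cond_absolutelyContinuous.ae_le ?_
  have h : ∀ᵐ z : Fin n → ℝ, ∀ (B : Finset (Idx n m)) (i j : Idx n m), B.card = n → i ∈ B →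
      j ∈ B.erase i → z ∉ Submodule.span ℝ
        (insert w (((B.erase i).erase j).image fun l => (r l).1) : Finset (Fin n → ℝ)) := by
    refine ae_all_iff.2 fun B => ae_all_iff.2 fun i => ae_all_iff.2 fun j => ?_
    by_cases h : B.card = n ∧ i ∈ B ∧ j ∈ B.erase i
    · have h1 := Measure.addHaar_submodule (volume : Measure (Fin n → ℝ)) (Submodule.span ℝ
        (insert w (((B.erase i).erase j).image fun l => (r l).1) : Finset (Fin n → ℝ))) fun h0 => by
          have h2 := finrank_span_finset_le_card (R := ℝ)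
            (insert w (((B.erase i).erase j).image fun l => (r l).1))
          have h3 := card_insert_le w (((B.erase i).erase j).image fun l => (r l).1)
          have h4 := card_image_le (s := (B.erase i).erase j) (f := fun l => (r l).1)
          have h5 := card_erase_add_one h.2.1
          have h6 := card_erase_add_one h.2.2
          rw [Set.finrank, h0, finrank_top, Module.finrank_fin_fun] at h2
          omega
      filter_upwards [measure_eq_zero_iff_ae_notMem.1 h1] with z hz _ _ _ using hz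
    · exact Eventually.of_forall fun z h1 h2 h3 => absurd ⟨h1, h2, h3⟩ h
  filter_upwards [h] with z hz B hB t y hw i hi j hj hyi hyj
  refine hz B i j hB hi hj ?_
  rw [← add_sum_erase _ _ hi, ← add_sum_erase _ _ hj, hyi, hyj, zero_smul, zero_smul, zero_add,
    zero_add, ← eq_sub_iff_add_eq] at hw
  rw [hw]
  refine Submodule.sub_mem _ (Submodule.sum_mem _ fun l hl => Submodule.smul_mem _ _ ?_)
    (Submodule.smul_mem _ _ ?_)
  · exact Submodule.subset_span (mem_coe.2 (mem_insert_of_mem (mem_image_of_mem _ hl)))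
  · exact Submodule.subset_span (mem_coe.2 (mem_insert_self _ _))

variable {θ : Fin n × Bool → ℝ} {inp : Fin m → Row n} {z c : Fin n → ℝ}

theorem rows_fst (M M' : ℝ) (l : Idx n m) : (rows M θ inp l).1 = (rows M' θ inp l).1 := by
  cases l <;> rfl

theorem target_rows (M M' : ℝ) (k : ℕ) :
    target (rows M θ inp) c k = target (rows M' θ inp) c k := rfl

theorem onPath_between {S B : Finset (Idx n m)} {w : Fin n → ℝ} {M₁ M M₂ : ℝ} (h1 : M₁ ≤ M)
    (h2 : M ≤ M₂) (p1 : OnPath (rows M₁ θ inp) S z w B) (p2 : OnPath (rows M₂ θ inp) S z w B) :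
    OnPath (rows M θ inp) S z w B := by
  obtain ⟨a, b, ha, hb, hab, rfl⟩ := (segment_eq_Icc (h1.trans h2)).ge ⟨h1, h2⟩
  obtain ⟨⟨x₁, hx₁⟩, hd⟩ := p1
  obtain ⟨⟨x₂, hx₂⟩, -⟩ := p2
  have e : ∀ l, (rows (a • M₁ + b • M₂) θ inp l).2 =
      a * (rows M₁ θ inp l).2 + b * (rows M₂ θ inp l).2 := by
    intro l
    rcases l with q | i
    · simp only [rows, smul_eq_mul]
      ring
    · simp only [rows]
      rw [← add_mul, hab, one_mul]
  have e' : ∀ l, (rows (a • M₁ + b • M₂) θ inp l).1 ⬝ᵥ (a • x₁ + b • x₂) =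
      a * ((rows M₁ θ inp l).1 ⬝ᵥ x₁) + b * ((rows M₂ θ inp l).1 ⬝ᵥ x₂) := by
    intro l
    rw [dotProduct_add, dotProduct_smul, dotProduct_smul, rows_fst M₁ (a • M₁ + b • M₂),
      rows_fst M₂ (a • M₁ + b • M₂)]
    rfl
  refine ⟨⟨a • x₁ + b • x₂, hx₁.1, hx₁.2.1, ?_, fun l hl => ?_, fun l hl => ?_⟩, ?_⟩
  · simpa only [rows_fst _ M₁] using hx₁.2.2.1
  · rw [e, e', hx₁.2.2.2.1 l hl, hx₂.2.2.2.1 l hl]
  · rw [e, e']
    gcongr
    · exact hx₁.2.2.2.2 l hl
    · exact hx₂.2.2.2.2 l hl
  · simpa only [OnDual, IsDual, rows_fst _ M₁] using hd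

theorem eventually_stable {P : ℝ → Prop} (h : ∀ a b c, a ≤ b → b ≤ c → P a → P c → P b) :
    ∀ᶠ M in atTop, P M → ∀ᶠ j : ℕ in atTop, P (j + 1) := by
  by_cases hf : ∃ᶠ M in atTop, P M
  · obtain ⟨a, ha⟩ := hf.exists
    refine Eventually.of_forall fun _ _ => ?_
    filter_upwards [(tendsto_natCast_atTop_atTop (R := ℝ)).eventually_ge_atTop a] with j hj
    obtain ⟨c, hc, hc'⟩ := frequently_atTop.1 hf (j + 1)
    exact h a _ c (by linarith) hc ha hc'
  · exact (not_frequently.1 hf).mono fun M h1 h2 => absurd h2 h1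

theorem eventually_correct (hθ : ∀ q, 0 ≤ θ q) :
    ∀ᶠ M in atTop, ∀ s a, Stops (rows M θ inp) c s a → Correct inp c a := by
  have h1 : ∀ᶠ M in atTop, ∀ (k : Fin m) B x y, IsBFS (rows M θ inp) (sys n m k) B x →
      (inp k).2 < (inp k).1 ⬝ᵥ x → IsDual (rows M θ inp) B (-(inp k).1) y →
      Correct inp c .infeasible := by
    by_cases h : Correct inp c .infeasible
    · exact Eventually.of_forall fun _ _ _ _ _ _ _ _ => h
    obtain ⟨x₀, hx₀⟩ := not_not.1 h
    filter_upwards [eventually_ge_atTop ‖x₀‖] with M hM k B x y hx hv hy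
    have h2 := hx.optimal hy (u := x₀) fun l _ => by
      rcases l with q | i
      · have h3 := abs_le.1 ((norm_le_pi_norm x₀ q.1).trans hM)
        have h4 := mul_nonneg ((norm_nonneg _).trans hM) (hθ q)
        simp only [rows, single_dotProduct]
        split_ifs <;> linarith [h3.1, h3.2]
      · exact hx₀ i
    simp only [neg_dotProduct] at h2
    linarith [hx₀ k]
  have h2 : ∀ᶠ M in atTop, ∀ B q x y, IsBFS (rows M θ inp) (sys n m m) B x →
      IsDual (rows M θ inp) B c y → .inl q ∈ B → 0 < y (.inl q) → Correct inp c .unbounded := by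
    refine eventually_all.2 fun B => eventually_all.2 fun q => ?_
    by_contra hcon
    have hf := not_eventually.1 hcon
    obtain ⟨M₀, h₀⟩ := hf.exists
    push Not at h₀
    obtain ⟨x₀, y₀, hx₀, hy₀, hq, hpos, hnc⟩ := h₀
    refine hnc fun K => ?_
    obtain ⟨M, hM, h⟩ := frequently_atTop.1 hf (max (M₀ + (K - c ⬝ᵥ x₀) / y₀ (.inl q) + 1) M₀)
    push Not at h
    obtain ⟨x, -, hx, -⟩ := h
    refine ⟨x, fun i => hx.2.2.2.2 (.inr i) ((inr_mem_sys _ _).2 i.2), ?_⟩
    have h3 := hx.dot_sub y₀ x₀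
    simp only [rows_fst M M₀] at h3
    rw [← hy₀.2, dotProduct_sub] at h3
    have hM1 := (le_max_left _ _).trans hM
    have hM2 := (le_max_right _ _).trans hM
    have h4 := single_le_sum (f := fun l => y₀ l * ((rows M θ inp l).2 - (rows M₀ θ inp l).1 ⬝ᵥ x₀))
      (fun l hl => mul_nonneg (hy₀.1 l hl) (by
        rw [hx₀.2.2.2.1 l hl]
        rcases l with q | i
        · have := hθ q
          simp only [rows]
          nlinarith
        · simp [rows])) hq
    rw [← h3, hx₀.2.2.2.1 _ hq] at h4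
    simp only [rows] at h4
    have h5 := mul_div_cancel₀ (K - c ⬝ᵥ x₀) hpos.ne'
    have h6 := mul_nonneg (mul_nonneg hpos.le (sub_nonneg.2 hM2)) (hθ q)
    nlinarith
  filter_upwards [h1, h2] with M h1 h2 s a hs
  cases hs with
  | infeasible k B x y hx hv hy => exact h1 k B x y hx hv hy
  | unbounded B x y q hx hy hq hp => exact h2 B q x y hx hy hq hp
  | optimal B x y hx hy h0 =>
    refine ⟨fun i => hx.2.2.2.2 (.inr i) ((inr_mem_sys _ _).2 i.2), fun x' hx' => ?_⟩
    have h3 := hx.dot_sub y x'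
    rw [← hy.2, dotProduct_sub] at h3
    refine sub_nonneg.1 (h3 ▸ sum_nonneg fun l hl => ?_)
    rcases l with q | i
    · rw [h0 q hl, zero_mul]
    · exact mul_nonneg (hy.1 _ hl) (sub_nonneg.2 (hx' i))

/-- A box row as a function of its parameter. -/
def boxRow (M : ℝ) (q : Fin n × Bool) (t : ℝ) : Row n :=
  (Pi.single q.1 (if q.2 then 1 else -1), M * (1 + t))

theorem meas_boxRow (M : ℝ) (q : Fin n × Bool) : Measurable (boxRow M q) := by
  unfold boxRow
  fun_prop

/-- The laws of all rows. -/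
noncomputable def rowLaw (M : ℝ) (μ : Fin m → Measure (Row n)) : Idx n m → Measure (Row n)
  | .inl q => (expMeasure 1).map (boxRow M q)
  | .inr i => μ i

instance (M : ℝ) (μ : Fin m → Measure (Row n)) [∀ i, IsProbabilityMeasure (μ i)] (l : Idx n m) :
    IsProbabilityMeasure (rowLaw M μ l) := by
  rcases l with q | i
  · have := isProbabilityMeasure_expMeasure (r := 1) one_pos
    exact Measure.isProbabilityMeasure_map (meas_boxRow M q).aemeasurable
  · exact inferInstanceAs (IsProbabilityMeasure (μ i))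

instance : IsProbabilityMeasure (boxLaw n) := by
  have := isProbabilityMeasure_expMeasure (r := 1) one_pos
  unfold boxLaw
  infer_instance

theorem continuous_rows (M : ℝ) :
    Continuous fun p : (Fin m → Row n) × (Fin n × Bool → ℝ) => rows M p.2 p.1 := by
  refine continuous_pi fun l => ?_
  rcases l with q | i
  · simp only [rows]
    fun_prop
  · simp only [rows]
    fun_prop

theorem preserving_rows (M : ℝ) (μ : Fin m → Measure (Row n)) [∀ i, IsProbabilityMeasure (μ i)] :
    MeasurePreserving (fun p : (Fin m → Row n) × (Fin n × Bool → ℝ) => rows M p.2 p.1)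
      ((Measure.pi μ).prod (boxLaw n)) (Measure.pi (rowLaw M μ)) := by
  have := isProbabilityMeasure_expMeasure (r := 1) one_pos
  refine ⟨(continuous_rows M).measurable, (Measure.pi_eq fun s hs => ?_).symm⟩
  rw [Measure.map_apply (continuous_rows M).measurable (MeasurableSet.univ_pi hs)]
  have h : (fun p : (Fin m → Row n) × (Fin n × Bool → ℝ) => rows M p.2 p.1) ⁻¹' Set.univ.pi s =
      Set.univ.pi (fun i => s (.inr i)) ×ˢ Set.univ.pi fun q => boxRow M q ⁻¹' s (.inl q) := by
    ext p
    simp only [Set.mem_preimage, Set.mem_pi, Set.mem_univ, true_imp_iff, Set.mem_prod, Sum.forall]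
    exact and_comm
  rw [h, Measure.prod_prod, boxLaw, Measure.pi_pi, Measure.pi_pi, Fintype.prod_sum_type, mul_comm]
  congr 1
  exact prod_congr rfl fun q _ => (Measure.map_apply (meas_boxRow M q) (hs _)).symm

theorem rowLaws {M u φ κ : ℝ} (hM : 0 < M) {μ : Fin m → Fin n → Measure ℝ}
    {μ' : Fin m → Measure ℝ} (hμ : ∀ i j, Nice (μ i j) φ κ) (hμ' : ∀ i, Nice (μ' i) φ κ)
    (hφ : 0 ≤ φ) (hφu : φ ≤ u) (hκu : (n + 1) * κ ≤ u) (hu : 1 ≤ u) :
    RowLaws (rowLaw M fun i => (Measure.pi (μ i)).prod (μ' i)) M u := by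
  have := isProbabilityMeasure_expMeasure (r := 1) one_pos
  refine ⟨fun i v g hg => ?_, fun i h δ hh hδ => ?_, fun l => ?_, fun q v g hg => ?_,
    fun q Θ hΘ => ?_⟩
  · exact (row_slack (hμ i) (hμ' i) hφ v hg).trans (by gcongr)
  · exact (row_flat (hμ i) (hμ' i) hφ hh hδ).trans (by gcongr)
  · rcases l with q | i
    · rw [rowLaw, lintegral_map (continuous_size _).measurable.ennreal_ofReal (meas_boxRow M q)]
      refine (lintegral_mono (g := fun _ => ENNReal.ofReal u) fun t => ?_).trans (by simp)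
      refine ENNReal.ofReal_le_ofReal (le_trans ?_ hu)
      simp only [size, boxRow, Pi.norm_single]
      split_ifs <;> simp
    · refine (row_mom (hμ i) (hμ' i)).trans (le_trans (le_of_eq ?_) (ENNReal.ofReal_le_ofReal hκu))
      rw [ENNReal.ofReal_mul (by positivity), ENNReal.ofReal_add (by positivity) zero_le_one]
      simp
  · rw [rowLaw, Measure.map_apply (meas_boxRow M q) (IsClosed.and
      (isClosed_le (by fun_prop) (by fun_prop))
      (isClosed_le (by fun_prop) (by fun_prop))).measurableSet, Measure.map_apply (meas_boxRow M q)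
      (isClosed_le (by fun_prop) (by fun_prop)).measurableSet]
    set s := (Pi.single q.1 (if q.2 then 1 else -1) ⬝ᵥ v) / M - 1 with hs
    have e : ∀ t, (boxRow M q t).2 - (boxRow M q t).1 ⬝ᵥ v = M * (t - s) := by
      intro t
      simp only [boxRow, hs]
      field_simp
      ring
    refine le_trans (measure_mono fun t ht => ?_) ((exp_Icc s g hg).trans
      (mul_le_mul_right (measure_mono fun t ht => ?_) _))
    · simp only [Set.mem_preimage, Set.mem_ofPred_eq, e] at ht
      exact ⟨by nlinarith [ht.1], by nlinarith [ht.2]⟩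
    · simp only [Set.mem_preimage, Set.mem_ofPred_eq, e]
      exact mul_nonneg hM.le (sub_nonneg.2 ht)
  · rw [rowLaw, Measure.map_apply (meas_boxRow M q) (meas_shape _ _ _).compl]
    refine le_trans (measure_mono ?_) (exp_compl Θ hΘ)
    refine fun t ht ht' => ht ⟨rfl, ?_, ?_⟩
    · simp only [boxRow]
      nlinarith [ht'.1]
    · simp only [boxRow]
      nlinarith [ht'.2]

theorem ncard_eq_sum {Ω β : Type} [Fintype β] (F : β → Set Ω) (p : Ω) :
    {B | p ∈ F B}.ncard = ∑ B, (F B).indicator 1 p := by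
  classical
  rw [Set.ncard_eq_toFinset_card', Set.toFinset_ofPred, card_filter]
  exact sum_congr rfl fun B _ => by simp [Set.indicator_apply]

theorem sum_liminf_le {Ω β : Type} [Fintype β] [MeasurableSpace Ω] (P : Measure Ω)
    (E : ℕ → β → Set Ω) {C : ℝ≥0∞} (h : ∀ j, ∑ B, P (E j B) ≤ C) :
    ∑ B, P {p | ∀ᶠ j in atTop, p ∈ E j B} ≤ C := by
  have h1 : ∀ B, Tendsto (fun N => P (⋂ j ≥ N, E j B)) atTop
      (𝓝 (P {p | ∀ᶠ j in atTop, p ∈ E j B})) := by
    intro B
    have h2 : {p | ∀ᶠ j in atTop, p ∈ E j B} = ⋃ N, ⋂ j ≥ N, E j B := by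
      ext p
      simp
    rw [h2]
    exact tendsto_measure_iUnion_atTop fun N N' hN => Set.biInter_subset_biInter_left
      fun j hj => hN.trans hj
  refine le_of_tendsto' (tendsto_finsetSum _ fun B _ => h1 B) fun N => le_trans ?_ (h N)
  exact sum_le_sum fun B _ => measure_mono (Set.biInter_subset_of_mem (le_refl N))

end Pool.Agent.Lib.MP_3b7f8d_lc
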